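import Pool.Agent.EG88.Err

/-!
The lower bound for the eigenvalues of the product of two disjoint cycles of lengths
`2 e + 1`, `2 e + 1`, respectively `2 e + 3`, `2 e + 1`.
-/

namespace Pool.Agent.EG88

open Equiv Finset Pool.Agent.OG88

variable {n : ℕ} {V : Type*} [NormedAddCommGroup V] [InnerProductSpace ℝ V]

lemma ratio_le {a : ℕ → ℝ} (h0 : a 0 = 1) (hnn : ∀ i, 0 ≤ a i)
    (hlc : ∀ i, a (i + 1) ^ 2 ≤ a i * a (i + 2)) {e : ℕ} {c : ℝ} (hc : 0 < c)
    (h : c ^ (e + 1) ≤ a (e + 1)) : c * a e ≤ a (e + 1) ∧ c * a (e + 1) ≤ a (e + 2) := by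
  have hpos : 0 < a (e + 1) := lt_of_lt_of_le (by positivity) h
  set y : ℝ := a (e + 1) ^ (((e + 1 : ℕ) : ℝ)⁻¹) with hy
  have hy0 : 0 < y := Real.rpow_pos_of_pos hpos _
  have hye : y ^ (e + 1) = a (e + 1) := Real.rpow_inv_natCast_pow hpos.le (by omega)
  have hcy : c ≤ y := le_of_pow_le_pow_left₀ (n := e + 1) (by omega) hy0.le (by rw [hye]; exact h)
  have h1 := log_convex hy0 h0 hnn hlc (e := e + 1) hye.ge e (by omega)
  have h2 : c * a e ≤ a (e + 1) := by
    calc c * a e ≤ y * a e := mul_le_mul_of_nonneg_right hcy (hnn e)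
      _ ≤ y * y ^ e := mul_le_mul_of_nonneg_left h1 hy0.le
      _ = a (e + 1) := by rw [← hye, pow_succ']
  refine ⟨h2, ?_⟩
  have h3 : a (e + 1) * (c * a (e + 1)) ≤ a (e + 1) * a (e + 2) := by
    calc a (e + 1) * (c * a (e + 1)) = c * a (e + 1) ^ 2 := by ring
      _ ≤ c * (a e * a (e + 2)) := mul_le_mul_of_nonneg_left (hlc e) hc.le
      _ = (c * a e) * a (e + 2) := by ring
      _ ≤ a (e + 1) * a (e + 2) := mul_le_mul_of_nonneg_right h2 (hnn _)
  exact le_of_mul_le_mul_left h3 hpos

lemma mom_ratio (hn : 0 < n) {R : Perm (Fin n) →* Module.End ℝ V} (hR : Orth R) {v : V}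
    {χ : Perm (Fin n) → ℝ} (hs : IsState R v χ) {e : ℕ} {c : ℝ} (hc : 0 < c)
    (h : c ^ (e + 1) ≤ mom R v (e + 1)) :
    c * mom R v e ≤ mom R v (e + 1) ∧ c * mom R v (e + 1) ≤ mom R v (e + 2) :=
  ratio_le (a := fun i => mom R v i) (mom_zero hn R v hs.norm_eq) (mom_nonneg R v)
    (mom_sq_le hn hR v) hc h

/-- Two cycles of the same length `2 e + 1`. -/
lemma case_eq {R : Perm (Fin n) →* Module.End ℝ V} {v : V}
    {χ : Perm (Fin n) → ℝ} (hR : Orth R) (hs : IsState R v χ) {e : ℕ} (he : 1 ≤ e) (hn0 : 0 < n)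
    {B w : ℝ} (hB : B = 8 * (4 * (e : ℝ) + 2) ^ 2) (hn : 8 * (4 * e + 2) ^ 2 ≤ n)
    (hw : w ^ (e + 1) * B = n) (hw1 : 1 ≤ w) {g₀ : Perm (Fin n)}
    (hg₀ : ((cyc hn0 (2 * e)).support.map g₀.toEmbedding ∩ (cyc hn0 (2 * e)).support).card = 0) :
    -((B / n) ^ (2 * e) / w) ≤ χ (g₀ * cyc hn0 (2 * e) * g₀⁻¹ * cyc hn0 (2 * e)) := by
  have hen : 2 * e < n := by nlinarith
  have hcyc := cyc_isCycle hn0 (2 * e) hen (by omega)
  have hcard := card_cyc_support hn0 (2 * e) hen (by omega)
  set N : ℝ := (n : ℝ) with hN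
  have hBN : B ≤ N := by rw [hB, hN]; exact_mod_cast hn
  have heR : (1 : ℝ) ≤ e := by exact_mod_cast he
  have hB0 : 0 < B := by rw [hB]; positivity
  have hN0 : 0 < N := lt_of_lt_of_le hB0 hBN
  have hw0 : 0 < w := by linarith
  set r : ℝ := B / N with hr
  have hr0 : 0 < r := by positivity
  have hr1 : r ≤ 1 := by rw [hr, div_le_one hN0]; exact hBN
  have hrw : w ^ (e + 1) * r = 1 := by
    rw [hr, mul_div_assoc', hw, div_self hN0.ne']
  -- `r ≤ 1 / w`
  have hrw1 : r ≤ 1 / w := by
    rw [le_div_iff₀ hw0]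
    have h1 : w ≤ w ^ (e + 1) := le_self_pow₀ hw1 (by omega)
    nlinarith
  set M : ℕ → ℝ := fun i => mom R v i with hM
  have hM0 : ∀ i, 0 ≤ M i := mom_nonneg R v
  obtain ⟨y, hyA, hyN, hMy, hyor, hlev⟩ := level hR hs (m := 2 * e) (D := 2 * (2 * e) + 2)
    (by omega) (by omega) (by omega) (by nlinarith) hn0
  have hη : 0 ≤ 1 / 4 * (r ^ (2 * e) / w) := by positivity
  have hD : 4 * ((2 * (2 * e) + 2 : ℕ) : ℝ) ^ 2 = B / 2 := by rw [hB]; push_cast; ring
  have hc0 : 8 * (((cyc hn0 (2 * e)).support.card : ℝ) * (cyc hn0 (2 * e)).support.card / N)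
      = r / 4 := by
    rw [hcard, hr, hB]; push_cast; field_simp; ring
  have hmain : -(1 / 4 * (r ^ (2 * e) / w)) ≤ χ (cyc hn0 (2 * e)) * χ (cyc hn0 (2 * e))
      - 8 * (((cyc hn0 (2 * e)).support.card : ℝ) * (cyc hn0 (2 * e)).support.card / N)
        * (y / N ^ 2) ^ (2 * e) := by
    rw [hc0]
    have hsq : 0 ≤ χ (cyc hn0 (2 * e)) * χ (cyc hn0 (2 * e)) := mul_self_nonneg _
    rcases hyor with hy | hy
    · -- small `y`
      have h1 : y / N ^ 2 = r / 2 := by
        rw [hy, ← hN, hD, hr]; field_simp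
      rw [h1]
      have h2 : (r / 2) ^ (2 * e) ≤ r ^ (2 * e) :=
        pow_le_pow_left₀ (by positivity) (by linarith) _
      have h3 : r / 4 * (r / 2) ^ (2 * e) ≤ (1 / w) / 4 * r ^ (2 * e) := by
        apply mul_le_mul _ h2 (by positivity) (by positivity)
        linarith
      have h4 : (1 / w) / 4 * r ^ (2 * e) = 1 / 4 * (r ^ (2 * e) / w) := by ring
      linarith
    · have h1 : (y / N ^ 2) ^ (2 * e) = M (2 * e) / N ^ (4 * e) := by
        rw [div_pow, ← hy, ← pow_mul]; congr 2; ring
      rw [h1]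
      by_cases hhigh : (B * N) ^ e ≤ M e
      · -- large moment
        have h2 := chi_high hR hs he (by nlinarith) hn0 (by
          refine le_trans ?_ hhigh
          apply pow_le_pow_left₀ (by positivity)
          rw [hB]
          apply mul_le_mul_of_nonneg_right _ hN0.le
          nlinarith)
        obtain ⟨e', rfl⟩ : ∃ e', e = e' + 1 := ⟨e - 1, by omega⟩
        have h3 := (mom_ratio hn0 hR hs (e := e') (c := B * N) (by positivity) hhigh).1
        have h4 := mom_add_le hn0 hR hs e' (e' + 1)
        have h5 : B * M (2 * (e' + 1)) ≤ N * M (e' + 1) ^ 2 := by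
          have h6 : M (2 * (e' + 1)) ≤ N ^ 2 * M e' * M (e' + 1) := by
            have : 2 * (e' + 1) = e' + 1 + (e' + 1) := by ring
            rw [this]; exact h4
          calc B * M (2 * (e' + 1)) ≤ B * (N ^ 2 * M e' * M (e' + 1)) :=
                mul_le_mul_of_nonneg_left h6 hB0.le
            _ = N * M (e' + 1) * (B * N * M e') := by ring
            _ ≤ N * M (e' + 1) * M (e' + 1) := mul_le_mul_of_nonneg_left h3 (by
                have := hM0 (e' + 1); positivity)
            _ = _ := by ring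
        have h7 : 0 ≤ M (e' + 1) / (2 * N ^ (2 * (e' + 1))) := by
          have := hM0 (e' + 1); positivity
        have h8 : (M (e' + 1) / (2 * N ^ (2 * (e' + 1)))) * (M (e' + 1) / (2 * N ^ (2 * (e' + 1))))
            ≤ χ (cyc hn0 (2 * (e' + 1))) * χ (cyc hn0 (2 * (e' + 1))) :=
          mul_le_mul h2 h2 h7 (h7.trans h2)
        have h9 : r / 4 * (M (2 * (e' + 1)) / N ^ (4 * (e' + 1)))
            ≤ (M (e' + 1) / (2 * N ^ (2 * (e' + 1)))) * (M (e' + 1) / (2 * N ^ (2 * (e' + 1)))) := by
          have h10 : r / 4 * (M (2 * (e' + 1)) / N ^ (4 * (e' + 1)))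
              = (B * M (2 * (e' + 1))) / (4 * N * N ^ (4 * (e' + 1))) := by
            rw [hr]; field_simp
          have h11 : (M (e' + 1) / (2 * N ^ (2 * (e' + 1)))) * (M (e' + 1) / (2 * N ^ (2 * (e' + 1))))
              = (N * M (e' + 1) ^ 2) / (4 * N * N ^ (4 * (e' + 1))) := by
            have : N ^ (4 * (e' + 1)) = N ^ (2 * (e' + 1)) * N ^ (2 * (e' + 1)) := by
              rw [← pow_add]; congr 1; ring
            rw [this]; field_simp; ring
          rw [h10, h11]
          exact div_le_div_of_nonneg_right h5 (by positivity)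
        linarith
      · -- small moment
        push Not at hhigh
        have h2 : N ^ 2 * M e ≤ (w * (B * N)) ^ (e + 1) := by
          have h3 : (w * (B * N)) ^ (e + 1) = N ^ 2 * (B * N) ^ e := by
            rw [mul_pow, pow_succ (B * N) e]
            calc w ^ (e + 1) * ((B * N) ^ e * (B * N)) = (w ^ (e + 1) * B) * N * (B * N) ^ e := by
                  ring
              _ = _ := by rw [hw]; ring
          rw [h3]
          exact mul_le_mul_of_nonneg_left hhigh.le (by positivity)
        have h4 := mom_add_le' hn0 hR hs (y := w * (B * N)) (by positivity) h2 e e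
        have h5 : M (2 * e) ≤ w ^ e * (B * N) ^ (2 * e) := by
          have h6 : M (2 * e) ≤ (w * (B * N)) ^ e * M e := by
            rw [two_mul]; exact h4
          refine h6.trans ?_
          calc (w * (B * N)) ^ e * M e ≤ (w * (B * N)) ^ e * (B * N) ^ e :=
                mul_le_mul_of_nonneg_left hhigh.le (by positivity)
            _ = _ := by rw [mul_pow, two_mul, pow_add]; ring
        have h7 : r / 4 * (M (2 * e) / N ^ (4 * e)) ≤ 1 / 4 * (r ^ (2 * e) / w) := by
          calc r / 4 * (M (2 * e) / N ^ (4 * e))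
              ≤ r / 4 * (w ^ e * (B * N) ^ (2 * e) / N ^ (4 * e)) := by
                apply mul_le_mul_of_nonneg_left _ (by positivity)
                exact div_le_div_of_nonneg_right h5 (by positivity)
            _ = 1 / 4 * ((w ^ (e + 1) * r) * r ^ (2 * e) / w) := by
                have h8 : (B * N) ^ (2 * e) / N ^ (4 * e) = r ^ (2 * e) := by
                  rw [hr, div_pow, mul_pow]
                  have : N ^ (4 * e) = N ^ (2 * e) * N ^ (2 * e) := by
                    rw [← pow_add]; congr 1; ring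
                  rw [this]; field_simp
                rw [mul_div_assoc, h8, pow_succ]
                field_simp
            _ = _ := by rw [hrw, one_mul]
        linarith
  have hfin := chi_pair hs hn0 hcyc hcyc (E := 2 * e) (by rw [hcard]; ring) (by nlinarith) hg₀
    hyA hyN hlev hη hmain
  refine le_trans ?_ hfin
  have : 0 ≤ r ^ (2 * e) / w := by positivity
  linarith

/-- Two cycles of the lengths `2 e + 3` and `2 e + 1`. -/
lemma case_ne {R : Perm (Fin n) →* Module.End ℝ V} {v : V}
    {χ : Perm (Fin n) → ℝ} (hR : Orth R) (hs : IsState R v χ) {e : ℕ} (he : 1 ≤ e) (hn0 : 0 < n)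
    {B w : ℝ} (hB : B = 8 * (4 * (e : ℝ) + 4) ^ 2) (hn : 8 * (4 * e + 4) ^ 2 ≤ n)
    (hw : w ^ (e + 1) * B = n) (hw1 : 1 ≤ w) {g₀ : Perm (Fin n)}
    (hg₀ : ((cyc hn0 (2 * (e + 1))).support.map g₀.toEmbedding
      ∩ (cyc hn0 (2 * e)).support).card = 0) :
    -(20 * (w * (B / n) ^ (2 * e + 1)))
      ≤ χ (g₀ * cyc hn0 (2 * (e + 1)) * g₀⁻¹ * cyc hn0 (2 * e)) := by
  have hen : 2 * (e + 1) < n := by nlinarith
  have hcyc := cyc_isCycle hn0 (2 * e) (by omega) (by omega)
  have hcyc' := cyc_isCycle hn0 (2 * (e + 1)) hen (by omega)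
  have hcard := card_cyc_support hn0 (2 * e) (by omega) (by omega)
  have hcard' := card_cyc_support hn0 (2 * (e + 1)) hen (by omega)
  set N : ℝ := (n : ℝ) with hN
  have hBN : B ≤ N := by rw [hB, hN]; exact_mod_cast hn
  have heR : (1 : ℝ) ≤ e := by exact_mod_cast he
  have hB0 : 0 < B := by rw [hB]; positivity
  have hN0 : 0 < N := lt_of_lt_of_le hB0 hBN
  have hw0 : 0 < w := by linarith
  set r : ℝ := B / N with hr
  have hr0 : 0 < r := by positivity
  have hr1 : r ≤ 1 := by rw [hr, div_le_one hN0]; exact hBN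
  set M : ℕ → ℝ := fun i => mom R v i with hM
  have hM0 : ∀ i, 0 ≤ M i := mom_nonneg R v
  obtain ⟨y, hyA, hyN, hMy, hyor, hlev⟩ := level hR hs (m := 2 * e + 1) (D := 2 * (2 * e + 1) + 2)
    (by omega) (by omega) (by omega) (by nlinarith) hn0
  set P : ℝ := w * r ^ (2 * e + 1) with hP
  have hP0 : 0 < P := by positivity
  have hrP : r ^ (2 * e + 1) ≤ P := by
    rw [hP]; exact le_mul_of_one_le_left (by positivity) hw1
  have hD : 4 * ((2 * (2 * e + 1) + 2 : ℕ) : ℝ) ^ 2 = B / 2 := by rw [hB]; push_cast; ring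
  set c₀ : ℝ := 8 * (((cyc hn0 (2 * (e + 1))).support.card : ℝ)
    * (cyc hn0 (2 * e)).support.card / N) with hc₀
  have hc0 : c₀ ≤ r / 4 := by
    rw [hc₀, hcard, hcard', hr, hB, mul_div_assoc', div_div]
    rw [div_le_div_iff₀ hN0 (by positivity)]
    push_cast
    nlinarith
  have hc00 : 0 ≤ c₀ := by rw [hc₀]; positivity
  have hsmall : y = 4 * ((2 * (2 * e + 1) + 2 : ℕ) : ℝ) ^ 2 * N →
      c₀ * (y / N ^ 2) ^ (2 * e + 1) ≤ 1 / 4 * P := by
    intro hy
    have h1 : y / N ^ 2 = r / 2 := by
      rw [hy, hD, hr]; field_simp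
    rw [h1]
    have h2 : (r / 2) ^ (2 * e + 1) ≤ r ^ (2 * e + 1) :=
      pow_le_pow_left₀ (by positivity) (by linarith) _
    exact mul_le_mul (by linarith) (h2.trans hrP) (by positivity) (by norm_num)
  have hbig : ∀ T : ℝ, 0 ≤ T → r / 4 * (M (2 * e + 1) / N ^ (4 * e + 2)) ≤ T →
      y ^ (2 * e + 1) = M (2 * e + 1) → c₀ * (y / N ^ 2) ^ (2 * e + 1) ≤ T := by
    intro T hT h hy
    have h1 : (y / N ^ 2) ^ (2 * e + 1) = M (2 * e + 1) / N ^ (4 * e + 2) := by
      rw [div_pow, hy, ← pow_mul]; congr 2; ring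
    rw [h1]
    refine le_trans ?_ h
    apply mul_le_mul_of_nonneg_right hc0
    have := hM0 (2 * e + 1); positivity
  have hmain : -(65 / 4 * P) ≤ χ (cyc hn0 (2 * (e + 1))) * χ (cyc hn0 (2 * e))
      - c₀ * (y / N ^ 2) ^ (2 * e + 1) := by
    by_cases hhigh : (B * N) ^ e ≤ M e
    · -- large moment
      have h2 := chi_high hR hs he (by nlinarith) hn0 (by
        refine le_trans ?_ hhigh
        apply pow_le_pow_left₀ (by positivity)
        rw [hB]
        apply mul_le_mul_of_nonneg_right _ hN0.le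
        nlinarith)
      obtain ⟨e', rfl⟩ : ∃ e', e = e' + 1 := ⟨e - 1, by omega⟩
      have h3 := (mom_ratio hn0 hR hs (e := e') (c := B * N) (by positivity) hhigh).2
      have h4 : (B * N) ^ (e' + 1 + 1) ≤ M (e' + 1 + 1) := by
        calc (B * N) ^ (e' + 1 + 1) = B * N * (B * N) ^ (e' + 1) := by rw [pow_succ']
          _ ≤ B * N * M (e' + 1) := mul_le_mul_of_nonneg_left hhigh (by positivity)
          _ ≤ _ := h3
      have h5 := chi_high hR hs (e := e' + 1 + 1) (by omega) (by nlinarith) hn0 (by
        refine le_trans ?_ h4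
        apply pow_le_pow_left₀ (by positivity)
        rw [hB]
        apply mul_le_mul_of_nonneg_right _ hN0.le
        have he0 : (0 : ℝ) ≤ e' := Nat.cast_nonneg _
        push_cast
        nlinarith)
      have h6 := mom_add_le hn0 hR hs (e' + 1) (e' + 1)
      have h7 : 0 ≤ M (e' + 1) / (2 * N ^ (2 * (e' + 1))) := by
        have := hM0 (e' + 1); positivity
      have h7' : 0 ≤ M (e' + 1 + 1) / (2 * N ^ (2 * (e' + 1 + 1))) := by
        have := hM0 (e' + 1 + 1); positivity
      have h8 : (M (e' + 1 + 1) / (2 * N ^ (2 * (e' + 1 + 1))))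
          * (M (e' + 1) / (2 * N ^ (2 * (e' + 1))))
          ≤ χ (cyc hn0 (2 * (e' + 1 + 1))) * χ (cyc hn0 (2 * (e' + 1))) :=
        mul_le_mul h5 h2 h7 (h7'.trans h5)
      rcases hyor with hy | hy
      · have h9 := hsmall hy
        have h10 : 0 ≤ (M (e' + 1 + 1) / (2 * N ^ (2 * (e' + 1 + 1))))
          * (M (e' + 1) / (2 * N ^ (2 * (e' + 1)))) := mul_nonneg h7' h7
        linarith
      · have h9 := hbig ((M (e' + 1 + 1) / (2 * N ^ (2 * (e' + 1 + 1))))
          * (M (e' + 1) / (2 * N ^ (2 * (e' + 1))))) (mul_nonneg h7' h7) (by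
            have h11 : B * M (2 * (e' + 1) + 1) ≤ N * (M (e' + 1 + 1) * M (e' + 1)) := by
              have h12 : M (2 * (e' + 1) + 1) ≤ N ^ 2 * M (e' + 1) * M (e' + 1) := by
                have : 2 * (e' + 1) + 1 = e' + 1 + 1 + (e' + 1) := by ring
                rw [this]; exact h6
              calc B * M (2 * (e' + 1) + 1) ≤ B * (N ^ 2 * M (e' + 1) * M (e' + 1)) :=
                    mul_le_mul_of_nonneg_left h12 hB0.le
                _ = N * M (e' + 1) * (B * N * M (e' + 1)) := by ring
                _ ≤ N * M (e' + 1) * M (e' + 1 + 1) := mul_le_mul_of_nonneg_left h3 (by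
                    have := hM0 (e' + 1); positivity)
                _ = _ := by ring
            have h13 : r / 4 * (M (2 * (e' + 1) + 1) / N ^ (4 * (e' + 1) + 2))
                = (B * M (2 * (e' + 1) + 1)) / (4 * N * N ^ (4 * (e' + 1) + 2)) := by
              rw [hr]; field_simp
            have h14 : (M (e' + 1 + 1) / (2 * N ^ (2 * (e' + 1 + 1))))
                * (M (e' + 1) / (2 * N ^ (2 * (e' + 1))))
                = (N * (M (e' + 1 + 1) * M (e' + 1))) / (4 * N * N ^ (4 * (e' + 1) + 2)) := by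
              have : N ^ (4 * (e' + 1) + 2) = N ^ (2 * (e' + 1 + 1)) * N ^ (2 * (e' + 1)) := by
                rw [← pow_add]; congr 1; ring
              rw [this]; field_simp; ring
            rw [h13, h14]
            exact div_le_div_of_nonneg_right h11 (by positivity)) hy.symm
        have : 0 ≤ 65 / 4 * P := by positivity
        linarith
    · -- small moment
      push Not at hhigh
      have h2 : N ^ 2 * M e ≤ (w * (B * N)) ^ (e + 1) := by
        have h3 : (w * (B * N)) ^ (e + 1) = N ^ 2 * (B * N) ^ e := by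
          rw [mul_pow, pow_succ (B * N) e]
          calc w ^ (e + 1) * ((B * N) ^ e * (B * N)) = (w ^ (e + 1) * B) * N * (B * N) ^ e := by
                ring
            _ = _ := by rw [hw]; ring
        rw [h3]
        exact mul_le_mul_of_nonneg_left hhigh.le (by positivity)
      -- the error term
      have herr : c₀ * (y / N ^ 2) ^ (2 * e + 1) ≤ 1 / 4 * P := by
        rcases hyor with hy | hy
        · exact hsmall hy
        · refine hbig _ (by positivity) ?_ hy.symm
          have h4 := mom_add_le' hn0 hR hs (y := w * (B * N)) (by positivity) h2 e (e + 1)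
          have h5 : M (2 * e + 1) ≤ (N / B) * (B * N) ^ (2 * e + 1) := by
            have h6 : M (2 * e + 1) ≤ (w * (B * N)) ^ (e + 1) * M e := by
              have : 2 * e + 1 = e + (e + 1) := by ring
              rw [this]; exact h4
            refine h6.trans ?_
            calc (w * (B * N)) ^ (e + 1) * M e ≤ (w * (B * N)) ^ (e + 1) * (B * N) ^ e :=
                  mul_le_mul_of_nonneg_left hhigh.le (by positivity)
              _ = w ^ (e + 1) * (B * N) ^ (2 * e + 1) := by
                  rw [mul_pow]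
                  have : (B * N) ^ (2 * e + 1) = (B * N) ^ (e + 1) * (B * N) ^ e := by
                    rw [← pow_add]; congr 1; ring
                  rw [this]; ring
              _ = _ := by
                  have : w ^ (e + 1) = N / B := by
                    rw [eq_div_iff hB0.ne']; exact hw
                  rw [this]
          refine le_trans ?_ (mul_le_mul_of_nonneg_left hrP (by norm_num))
          calc r / 4 * (M (2 * e + 1) / N ^ (4 * e + 2))
              ≤ r / 4 * ((N / B) * (B * N) ^ (2 * e + 1) / N ^ (4 * e + 2)) := by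
                apply mul_le_mul_of_nonneg_left _ (by positivity)
                exact div_le_div_of_nonneg_right h5 (by positivity)
            _ = 1 / 4 * r ^ (2 * e + 1) := by
                have h8 : (B * N) ^ (2 * e + 1) / N ^ (4 * e + 2) = r ^ (2 * e + 1) := by
                  rw [hr, div_pow, mul_pow]
                  have : N ^ (4 * e + 2) = N ^ (2 * e + 1) * N ^ (2 * e + 1) := by
                    rw [← pow_add]; congr 1; ring
                  rw [this]; field_simp
                rw [mul_div_assoc, h8, hr]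
                field_simp
      -- the two factors
      have hρ : |χ (cyc hn0 (2 * e))| ≤ 4 * r ^ e := by
        obtain ⟨y₁, hyA₁, hyN₁, hMy₁, hyor₁, hlev₁⟩ := level hR hs (m := e)
          (D := 2 * (2 * e + 1) + 2) he (by omega) (by omega) (by nlinarith) hn0
        have hy₁0 : 0 ≤ y₁ := le_trans (by positivity) hyA₁
        have h5 : y₁ ≤ B * N := by
          rcases hyor₁ with h | h
          · rw [h, hD]; nlinarith
          · have h6 : y₁ ^ e ≤ (B * N) ^ e := by rw [← h]; exact hhigh.le
            exact le_of_pow_le_pow_left₀ (by omega) (by positivity) h6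
        have h7 := hlev₁ e (cyc hn0 (2 * e)) (by rw [hcard]; omega)
          (good_cyc hn0 (2 * e) (by omega)) le_rfl
        refine h7.trans (mul_le_mul_of_nonneg_left ?_ (by norm_num))
        apply pow_le_pow_left₀ (by positivity)
        rw [hr, div_le_div_iff₀ (by positivity) hN0]
        nlinarith
      have hσ : |χ (cyc hn0 (2 * (e + 1)))| ≤ 4 * (w * r ^ (e + 1)) := by
        obtain ⟨y₂, hyA₂, hyN₂, hMy₂, hyor₂, hlev₂⟩ := level hR hs (m := e + 1)
          (D := 2 * (2 * e + 1) + 2) (by omega) (by omega) (by omega) (by nlinarith) hn0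
        have h7 := hlev₂ (e + 1) (cyc hn0 (2 * (e + 1))) (by rw [hcard']; omega)
          (good_cyc hn0 (2 * (e + 1)) hen) le_rfl
        refine h7.trans (mul_le_mul_of_nonneg_left ?_ (by norm_num))
        rcases hyor₂ with h | h
        · have h1 : y₂ / N ^ 2 = r / 2 := by
            rw [h, ← hN, hD, hr]; field_simp
          rw [h1]
          calc (r / 2) ^ (e + 1) ≤ r ^ (e + 1) := pow_le_pow_left₀ (by positivity) (by linarith) _
            _ ≤ w * r ^ (e + 1) := le_mul_of_one_le_left (by positivity) hw1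
        · have h1 : (y₂ / N ^ 2) ^ (e + 1) = M (e + 1) / N ^ (2 * (e + 1)) := by
            rw [div_pow, ← h, ← pow_mul]
          rw [h1]
          have h4 := mom_succ_le hn0 hR hs (y := w * (B * N)) (by positivity) h2 e
          have h5 : M (e + 1) ≤ w * (B * N) ^ (e + 1) := by
            calc M (e + 1) ≤ w * (B * N) * M e := h4
              _ ≤ w * (B * N) * (B * N) ^ e := mul_le_mul_of_nonneg_left hhigh.le (by positivity)
              _ = _ := by rw [pow_succ]; ring
          calc M (e + 1) / N ^ (2 * (e + 1)) ≤ w * (B * N) ^ (e + 1) / N ^ (2 * (e + 1)) :=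
                div_le_div_of_nonneg_right h5 (by positivity)
            _ = w * r ^ (e + 1) := by
                rw [hr, div_pow, mul_pow]
                have : N ^ (2 * (e + 1)) = N ^ (e + 1) * N ^ (e + 1) := by
                  rw [← pow_add]; congr 1; ring
                rw [this]; field_simp
      have hprod : |χ (cyc hn0 (2 * (e + 1))) * χ (cyc hn0 (2 * e))| ≤ 16 * P := by
        rw [abs_mul]
        calc |χ (cyc hn0 (2 * (e + 1)))| * |χ (cyc hn0 (2 * e))|
            ≤ (4 * (w * r ^ (e + 1))) * (4 * r ^ e) :=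
              mul_le_mul hσ hρ (abs_nonneg _) (by positivity)
          _ = 16 * P := by
              rw [hP]
              have : r ^ (2 * e + 1) = r ^ (e + 1) * r ^ e := by
                rw [← pow_add]; congr 1; ring
              rw [this]; ring
      have h10 := (abs_le.1 hprod).1
      linarith
  have hfin := chi_pair hs hn0 hcyc' hcyc (E := 2 * e + 1) (by rw [hcard, hcard']; ring)
    (by nlinarith) hg₀ hyA hyN hlev (by positivity) hmain
  refine le_trans ?_ hfin
  linarith

end Pool.Agent.EG88
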