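import Mathlib

set_option autoImplicit false

/-! # A union bound over permutations: overlaps of the image of a set with another set -/

namespace Pool.Agent.EG88

open Equiv Finset

variable {n : ℕ}

/-- number of the permutations which map `T` into `A` -/
def cnt (A T : Finset (Fin n)) : ℕ := (univ.filter fun h : Perm (Fin n) => ∀ x ∈ T, h x ∈ A).card

lemma cnt_insert (A T : Finset (Fin n)) {q : Fin n} (hq : q ∉ T) :
    ((n : ℝ) - T.card) * cnt A (insert q T) = ((A.card : ℝ) - T.card) * cnt A T := by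
  classical
  have h1 : ∑ q' ∈ Tᶜ, ((univ.filter fun h : Perm (Fin n) => (∀ x ∈ T, h x ∈ A) ∧ h q' ∈ A).card : ℝ) =
      ((n : ℝ) - T.card) * cnt A (insert q T) := by
    have h2 : ∀ q' ∈ Tᶜ, ((univ.filter fun h : Perm (Fin n) => (∀ x ∈ T, h x ∈ A) ∧ h q' ∈ A).card : ℝ) =
        cnt A (insert q T) := by
      intro q' hq'
      rw [mem_compl] at hq'
      unfold cnt
      norm_cast
      refine Finset.card_bij (fun h _ => h * swap q q') ?_ ?_ ?_
      · intro h hh
        rw [mem_filter] at hh ⊢
        refine ⟨mem_univ _, fun x hx => ?_⟩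
        rcases mem_insert.1 hx with rfl | hx
        · rw [Perm.mul_apply, swap_apply_left]
          exact hh.2.2
        · rw [Perm.mul_apply, swap_apply_of_ne_of_ne (ne_of_mem_of_not_mem hx hq) (ne_of_mem_of_not_mem hx hq')]
          exact hh.2.1 x hx
      · intro a _ b _ hab
        exact mul_right_cancel hab
      · intro b hb
        rw [mem_filter] at hb
        refine ⟨b * swap q q', ?_, ?_⟩
        · rw [mem_filter]
          refine ⟨mem_univ _, fun x hx => ?_, ?_⟩
          · rw [Perm.mul_apply, swap_apply_of_ne_of_ne (ne_of_mem_of_not_mem hx hq) (ne_of_mem_of_not_mem hx hq')]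
            exact hb.2 x (mem_insert_of_mem hx)
          · rw [Perm.mul_apply, swap_apply_right]
            exact hb.2 q (mem_insert_self _ _)
        · rw [mul_assoc, swap_mul_self, mul_one]
    rw [sum_congr rfl h2, sum_const, nsmul_eq_mul, card_compl, Fintype.card_fin]
    have h3 : T.card ≤ n := by simpa using card_le_univ T
    rw [Nat.cast_sub h3]
  rw [← h1]
  have h4 : ∀ q' : Fin n, ((univ.filter fun h : Perm (Fin n) => (∀ x ∈ T, h x ∈ A) ∧ h q' ∈ A).card : ℝ) =
      ∑ h ∈ univ.filter (fun h : Perm (Fin n) => ∀ x ∈ T, h x ∈ A), if h q' ∈ A then (1 : ℝ) else 0 := by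
    intro q'
    rw [← filter_filter, card_filter]
    push_cast
    rfl
  simp_rw [h4]
  rw [sum_comm]
  have h5 : ∀ h ∈ univ.filter (fun h : Perm (Fin n) => ∀ x ∈ T, h x ∈ A),
      ∑ q' ∈ Tᶜ, (if h q' ∈ A then (1 : ℝ) else 0) = (A.card : ℝ) - T.card := by
    intro h hh
    rw [mem_filter] at hh
    have h6 : ∑ q' ∈ Tᶜ, (if h q' ∈ A then (1 : ℝ) else 0) + ∑ q' ∈ T, (if h q' ∈ A then (1 : ℝ) else 0) =
        ∑ q' : Fin n, (if h q' ∈ A then (1 : ℝ) else 0) := by
      rw [add_comm]
      exact sum_add_sum_compl T _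
    have h7 : ∑ q' ∈ T, (if h q' ∈ A then (1 : ℝ) else 0) = T.card := by
      rw [sum_congr rfl fun x hx => if_pos (hh.2 x hx), sum_const, nsmul_eq_mul, mul_one]
    have h8 : ∑ q' : Fin n, (if h q' ∈ A then (1 : ℝ) else 0) = A.card := by
      rw [Equiv.sum_comp h (fun y => if y ∈ A then (1 : ℝ) else 0), sum_ite_mem, univ_inter, sum_const,
        nsmul_eq_mul, mul_one]
    linarith
  rw [sum_congr rfl h5, sum_const, nsmul_eq_mul, mul_comm]
  rfl

lemma cnt_le (hn : 0 < n) (A T : Finset (Fin n)) :
    (cnt A T : ℝ) ≤ n.factorial * ((A.card : ℝ) / n) ^ T.card := by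
  classical
  induction T using Finset.induction_on with
  | empty =>
    unfold cnt
    rw [card_empty, pow_zero, mul_one]
    norm_cast
    refine (card_le_univ _).trans ?_
    rw [Fintype.card_perm, Fintype.card_fin]
  | @insert q T hq ih =>
    have h1 := cnt_insert A T hq
    have hn' : (0 : ℝ) < n := by exact_mod_cast hn
    have hT : T.card < n := by
      have h2 : (insert q T).card ≤ n := by simpa using card_le_univ (insert q T)
      rw [card_insert_of_notMem hq] at h2
      omega
    have hT' : (0 : ℝ) < (n : ℝ) - T.card := by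
      have : (T.card : ℝ) < n := by exact_mod_cast hT
      linarith
    have hA : (A.card : ℝ) ≤ n := by
      have : A.card ≤ n := by simpa using card_le_univ A
      exact_mod_cast this
    have h3 : (A.card : ℝ) - T.card ≤ ((n : ℝ) - T.card) * ((A.card : ℝ) / n) := by
      rw [mul_div_assoc', le_div_iff₀ hn']
      have : (0 : ℝ) ≤ T.card := Nat.cast_nonneg _
      nlinarith
    have h4 : ((n : ℝ) - T.card) * cnt A (insert q T) ≤
        ((n : ℝ) - T.card) * ((A.card : ℝ) / n * cnt A T) := by
      rw [h1, ← mul_assoc]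
      exact mul_le_mul_of_nonneg_right h3 (Nat.cast_nonneg _)
    have h5 := le_of_mul_le_mul_left h4 hT'
    rw [card_insert_of_notMem hq, pow_succ]
    have h6 : (0 : ℝ) ≤ (A.card : ℝ) / n := by positivity
    calc (cnt A (insert q T) : ℝ) ≤ (A.card : ℝ) / n * cnt A T := h5
      _ ≤ (A.card : ℝ) / n * (n.factorial * ((A.card : ℝ) / n) ^ T.card) :=
        mul_le_mul_of_nonneg_left ih h6
      _ = n.factorial * (((A.card : ℝ) / n) ^ T.card * ((A.card : ℝ) / n)) := by ring

lemma card_sub (A T : Finset (Fin n)) :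
    (univ.filter fun g : Perm (Fin n) => T ⊆ A.map g.toEmbedding).card = cnt A T := by
  classical
  unfold cnt
  refine Finset.card_bij (fun g _ => g⁻¹) ?_ ?_ ?_
  · intro g hg
    rw [mem_filter] at hg ⊢
    refine ⟨mem_univ _, fun x hx => ?_⟩
    obtain ⟨y, hy, h1⟩ := mem_map.1 (hg.2 hx)
    rw [← h1]
    simpa using hy
  · intro a _ b _ hab
    exact inv_injective hab
  · intro b hb
    rw [mem_filter] at hb
    refine ⟨b⁻¹, ?_, inv_inv b⟩
    rw [mem_filter]
    refine ⟨mem_univ _, fun x hx => ?_⟩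
    rw [mem_map]
    exact ⟨b x, hb.2 x hx, by simp⟩

lemma sum_overlap (hn : 0 < n) (A B : Finset (Fin n)) {Y : ℝ} (hY : 1 ≤ Y) :
    ∑ g : Perm (Fin n), (if (A.map g.toEmbedding ∩ B).card = 0 then 0 else
      Y ^ (A.map g.toEmbedding ∩ B).card) ≤ n.factorial * ((1 + Y * A.card / n) ^ B.card - 1) := by
  classical
  have h1 : ∀ g : Perm (Fin n), (if (A.map g.toEmbedding ∩ B).card = 0 then 0 else
      Y ^ (A.map g.toEmbedding ∩ B).card) ≤
      ∑ T ∈ B.powerset.erase ∅, if T ⊆ A.map g.toEmbedding then Y ^ T.card else 0 := by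
    intro g
    have h0 : ∀ T ∈ B.powerset.erase ∅, (0 : ℝ) ≤ if T ⊆ A.map g.toEmbedding then Y ^ T.card else 0 := by
      intro T _
      split_ifs
      · positivity
      · exact le_rfl
    split_ifs with h
    · exact sum_nonneg h0
    · have h2 : A.map g.toEmbedding ∩ B ∈ B.powerset.erase ∅ := by
        rw [mem_erase, mem_powerset]
        refine ⟨fun h3 => h (by rw [h3, card_empty]), inter_subset_right⟩
      refine le_trans (le_of_eq ?_) (single_le_sum h0 h2)
      rw [if_pos inter_subset_left]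
  refine (sum_le_sum fun g _ => h1 g).trans ?_
  rw [sum_comm]
  have h2 : ∀ T ∈ B.powerset.erase ∅, ∑ g : Perm (Fin n), (if T ⊆ A.map g.toEmbedding then Y ^ T.card else 0) ≤
      n.factorial * ((Y * A.card / n) ^ T.card) := by
    intro T _
    rw [← sum_filter, sum_const, nsmul_eq_mul, card_sub]
    have h3 := cnt_le hn A T
    have h4 : (0 : ℝ) ≤ Y ^ T.card := by positivity
    calc (cnt A T : ℝ) * Y ^ T.card ≤ (n.factorial * ((A.card : ℝ) / n) ^ T.card) * Y ^ T.card :=
        mul_le_mul_of_nonneg_right h3 h4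
      _ = n.factorial * ((Y * A.card / n) ^ T.card) := by
        rw [mul_assoc, ← mul_pow]
        congr 2
        ring
  refine (sum_le_sum h2).trans (le_of_eq ?_)
  rw [← mul_sum]
  congr 1
  have h3 := Finset.sum_pow_mul_eq_add_pow (Y * A.card / n) (1 : ℝ) B
  simp only [one_pow, mul_one] at h3
  rw [add_comm, ← h3, ← sum_erase_add _ _ (empty_mem_powerset B), card_empty, pow_zero]
  ring

end Pool.Agent.EG88
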