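import Pool.Agent.OG88.Rank

/-!
The product of two cycles with a common point.
-/

namespace Pool.Agent.EG88

open Equiv Finset Pool.Agent.OG88

variable {n : ℕ}

lemma pow_inv {σ : Perm (Fin n)} {Z : Fin n → Prop} (h : ∀ x, Z x → Z (σ x)) (k : ℕ) (x : Fin n)
    (hx : Z x) : Z ((σ ^ k) x) := by
  induction k with
  | zero => simpa using hx
  | succ k ih =>
    rw [pow_succ', Perm.mul_apply]
    exact h _ ih

lemma zero_of_cycle {σ : Perm (Fin n)} (hσ : σ.IsCycle) {c : Fin n → ℝ} {z : Fin n}
    (hz : z ∈ σ.support) (hcz : c z = 0)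
    (h : ∀ x, x ∈ σ.support → c x ≠ 0 → c (σ x) ≠ 0) : ∀ x ∈ σ.support, c x = 0 := by
  intro x hx
  by_contra hne
  obtain ⟨k, hk⟩ := hσ.exists_pow_eq (Perm.mem_support.1 hx) (Perm.mem_support.1 hz)
  have h1 := pow_inv (σ := σ) (Z := fun x => x ∈ σ.support ∧ c x ≠ 0)
    (fun x hx => ⟨Perm.apply_mem_support.2 hx.1, h x hx.1 hx.2⟩) k x ⟨hx, hne⟩
  rw [hk] at h1
  exact h1.2 hcz

/-- The product of two cycles with `j ≥ 1` common points is no product of fewer than `a + b - 2 j`
transpositions, `a` and `b` the lengths. -/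
lemma good_prod {σ ρ : Perm (Fin n)} (hσ : σ.IsCycle) (hρ : ρ.IsCycle)
    (hj : 1 ≤ (σ.support ∩ ρ.support).card) :
    Good (σ.support.card + ρ.support.card - 2 * (σ.support ∩ ρ.support).card) (σ * ρ) := by
  obtain ⟨z, hz⟩ := Finset.card_pos.1 hj
  rw [Finset.mem_inter] at hz
  set S : Finset (Fin n) := (σ.support ∪ ρ.support)ᶜ ∪ (σ.support ∩ ρ.support) with hS
  set L : Inv (σ * ρ) →ₗ[ℝ] (S → ℝ) :=
    { toFun := fun c s => c.1 s.1
      map_add' := fun a b => rfl
      map_smul' := fun r a => rfl } with hL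
  have hinj : Function.Injective L := by
    rw [← LinearMap.ker_eq_bot, LinearMap.ker_eq_bot']
    rintro ⟨c, hc⟩ h0
    have hS0 : ∀ x ∈ S, c x = 0 := fun x hx => congrFun h0 ⟨x, hx⟩
    have hinter : ∀ x, x ∈ σ.support → x ∈ ρ.support → c x = 0 := fun x h1 h2 =>
      hS0 x (Finset.mem_union_right _ (Finset.mem_inter.2 ⟨h1, h2⟩))
    have hinv : ∀ x, c (σ (ρ x)) = c x := fun x => hc x
    have hA : ∀ x ∈ σ.support, c x = 0 := by
      refine zero_of_cycle hσ hz.1 (hinter z hz.1 hz.2) fun x hx hne => ?_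
      have h1 : x ∉ ρ.support := fun h => hne (hinter x hx h)
      have h2 := hinv x
      rw [Perm.notMem_support.1 h1] at h2
      rw [h2]; exact hne
    have hB : ∀ x ∈ ρ.support, c x = 0 := by
      refine zero_of_cycle hρ hz.2 (hinter z hz.1 hz.2) fun x _ hne => ?_
      have h2 := hinv x
      by_cases h3 : ρ x ∈ σ.support
      · rw [hA _ (Perm.apply_mem_support.2 h3)] at h2
        exact absurd h2.symm hne
      · rw [Perm.notMem_support.1 h3] at h2
        rw [h2]; exact hne
    refine Subtype.ext (funext fun x => ?_)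
    change c x = 0
    by_cases h1 : x ∈ σ.support
    · exact hA x h1
    · by_cases h2 : x ∈ ρ.support
      · exact hB x h2
      · refine hS0 x (Finset.mem_union_left _ ?_)
        rw [Finset.mem_compl, Finset.mem_union]
        exact fun h => h.elim h1 h2
  have h1 := LinearMap.finrank_le_finrank_of_injective hinj
  rw [Module.finrank_fintype_fun_eq_card, Fintype.card_coe] at h1
  have h2 : S.card ≤ ((σ.support ∪ ρ.support)ᶜ).card + (σ.support ∩ ρ.support).card :=
    Finset.card_union_le _ _
  have h3 : ((σ.support ∪ ρ.support)ᶜ).card + (σ.support ∪ ρ.support).card = n := by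
    rw [Finset.card_compl_add_card, Fintype.card_fin]
  have h4 := Finset.card_union_add_card_inter σ.support ρ.support
  have h5 : (σ.support ∩ ρ.support).card ≤ σ.support.card :=
    Finset.card_le_card Finset.inter_subset_left
  have h6 : (σ.support ∩ ρ.support).card ≤ ρ.support.card :=
    Finset.card_le_card Finset.inter_subset_right
  unfold Good
  omega

end Pool.Agent.EG88
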