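import Pool.Agent.EG88.Level
import Pool.Agent.EG88.Good2
import Pool.Agent.EG88.Count

/-!
The eigenvalue of the product of two disjoint cycles, up to an error term.
-/

namespace Pool.Agent.EG88

open Equiv Finset Pool.Agent.OG88

variable {n : ℕ} {V : Type*} [NormedAddCommGroup V] [InnerProductSpace ℝ V]

lemma one_add_pow_sub_le {t : ℝ} (ht : 0 ≤ t) (b : ℕ) (h : b * t ≤ 1) :
    (1 + t) ^ b - 1 ≤ 2 * (b * t) := by
  have h1 : (1 + t) ^ b ≤ Real.exp (b * t) := by
    rw [Real.exp_nat_mul]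
    exact pow_le_pow_left₀ (by linarith) (by linarith [Real.add_one_le_exp t]) b
  have h2 : 0 ≤ (b : ℝ) * t := by positivity
  have h3 := Real.abs_exp_sub_one_le (x := (b : ℝ) * t) (by rw [abs_of_nonneg h2]; exact h)
  rw [abs_of_nonneg h2] at h3
  have h4 := (abs_le.1 h3).2
  linarith

/-- Most permutations move `A` off `B`. -/
lemma card_disj (hn : 0 < n) (A B : Finset (Fin n)) (h : 16 * (A.card * B.card) ≤ n) :
    7 / 8 * (n.factorial : ℝ)
      ≤ ((univ.filter fun g : Perm (Fin n) => (A.map g.toEmbedding ∩ B).card = 0).card : ℝ) := by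
  have hnR : (0 : ℝ) < n := by exact_mod_cast hn
  have hR : 16 * ((A.card : ℝ) * B.card) ≤ n := by exact_mod_cast h
  have h1 := sum_overlap hn A B (Y := 1) le_rfl
  have h2 := one_add_pow_sub_le (t := 1 * (A.card : ℝ) / n) (by positivity) B.card (by
    rw [one_mul, mul_div_assoc', div_le_one hnR]
    nlinarith [mul_nonneg (Nat.cast_nonneg (α := ℝ) A.card) (Nat.cast_nonneg (α := ℝ) B.card)])
  have h3 : 2 * ((B.card : ℝ) * (1 * (A.card : ℝ) / n)) ≤ 1 / 8 := by
    rw [one_mul, mul_div_assoc', mul_div_assoc', div_le_iff₀ hnR]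
    linarith
  have hf : (0 : ℝ) < n.factorial := by positivity
  have h4 : ∑ g : Perm (Fin n), (if (A.map g.toEmbedding ∩ B).card = 0 then (0 : ℝ) else
      1 ^ (A.map g.toEmbedding ∩ B).card)
      = n.factorial
        - ((univ.filter fun g : Perm (Fin n) => (A.map g.toEmbedding ∩ B).card = 0).card : ℝ) := by
    have h5 : ∀ g : Perm (Fin n), (if (A.map g.toEmbedding ∩ B).card = 0 then (0 : ℝ) else
        1 ^ (A.map g.toEmbedding ∩ B).card)
        = 1 - (if (A.map g.toEmbedding ∩ B).card = 0 then (1 : ℝ) else 0) := by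
      intro g
      split_ifs <;> simp
    rw [Finset.sum_congr rfl (fun g _ => h5 g), Finset.sum_sub_distrib, Finset.sum_boole]
    simp [Fintype.card_perm]
  rw [h4] at h1
  nlinarith

lemma exists_disj (hn : 0 < n) (A B : Finset (Fin n)) (h : 16 * (A.card * B.card) ≤ n) :
    ∃ g : Perm (Fin n), (A.map g.toEmbedding ∩ B).card = 0 := by
  have h1 := card_disj hn A B h
  have hf : (0 : ℝ) < n.factorial := by positivity
  have h2 : (0 : ℝ) <
      ((univ.filter fun g : Perm (Fin n) => (A.map g.toEmbedding ∩ B).card = 0).card : ℝ) := by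
    linarith
  have h3 : 0 < (univ.filter fun g : Perm (Fin n) => (A.map g.toEmbedding ∩ B).card = 0).card := by
    exact_mod_cast h2
  obtain ⟨g, hg⟩ := Finset.card_pos.1 h3
  exact ⟨g, (Finset.mem_filter.1 hg).2⟩

lemma conj_of_disj {σ ρ g g' : Perm (Fin n)}
    (hg : (σ.support.map g.toEmbedding ∩ ρ.support).card = 0)
    (hg' : (σ.support.map g'.toEmbedding ∩ ρ.support).card = 0) :
    IsConj (g * σ * g⁻¹ * ρ) (g' * σ * g'⁻¹ * ρ) := by
  have key : ∀ g : Perm (Fin n), (σ.support.map g.toEmbedding ∩ ρ.support).card = 0 →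
      (g * σ * g⁻¹ * ρ).cycleType = σ.cycleType + ρ.cycleType := by
    intro g hg
    have h1 : Perm.Disjoint (g * σ * g⁻¹) ρ := by
      rw [Perm.disjoint_iff_disjoint_support, Perm.support_conj, Finset.disjoint_iff_inter_eq_empty]
      exact Finset.card_eq_zero.1 hg
    rw [h1.cycleType_mul, Perm.cycleType_conj]
  rw [Perm.isConj_iff_cycleType_eq, key g hg, key g' hg']

lemma card_support_disj {σ ρ g : Perm (Fin n)}
    (hg : (σ.support.map g.toEmbedding ∩ ρ.support).card = 0) :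
    (g * σ * g⁻¹ * ρ).support.card = σ.support.card + ρ.support.card := by
  have h1 : Perm.Disjoint (g * σ * g⁻¹) ρ := by
    rw [Perm.disjoint_iff_disjoint_support, Perm.support_conj, Finset.disjoint_iff_inter_eq_empty]
    exact Finset.card_eq_zero.1 hg
  rw [h1.card_support_mul, Perm.card_support_conj]

/-- From the sum over all `g` to the eigenvalue of the disjoint product. -/
lemma chi_disj_ge {R : Perm (Fin n) →* Module.End ℝ V} {v : V}
    {χ : Perm (Fin n) → ℝ} (hs : IsState R v χ) (hn : 0 < n) {σ ρ g₀ : Perm (Fin n)}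
    (h16 : 16 * (σ.support.card * ρ.support.card) ≤ n)
    (hg₀ : (σ.support.map g₀.toEmbedding ∩ ρ.support).card = 0) {c Y η : ℝ} (hc : 0 ≤ c)
    (hY : 1 ≤ Y) (hY1 : Y * (σ.support.card * ρ.support.card) ≤ n)
    (hb : ∀ g : Perm (Fin n), (σ.support.map g.toEmbedding ∩ ρ.support).card ≠ 0 →
      |χ (g * σ * g⁻¹ * ρ)| ≤ c * Y ^ (σ.support.map g.toEmbedding ∩ ρ.support).card)
    (hη : 0 ≤ η)
    (hmain : -η ≤ χ σ * χ ρ - c * (2 * (Y * (σ.support.card * ρ.support.card) / n))) :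
    -(8 / 7 * η) ≤ χ (g₀ * σ * g₀⁻¹ * ρ) := by
  have hnR : (0 : ℝ) < n := by exact_mod_cast hn
  set J : Perm (Fin n) → ℕ := fun g => (σ.support.map g.toEmbedding ∩ ρ.support).card with hJ
  set N₀ : ℝ := ((univ.filter fun g : Perm (Fin n) => J g = 0).card : ℝ) with hN₀
  have hN : 7 / 8 * (n.factorial : ℝ) ≤ N₀ := card_disj hn _ _ h16
  have hf : (0 : ℝ) < n.factorial := by positivity
  have h1 := sum_chi hs σ ρ
  have h2 : ∀ g : Perm (Fin n), χ (g * σ * g⁻¹ * ρ)
      ≤ (if J g = 0 then χ (g₀ * σ * g₀⁻¹ * ρ) else 0) + c * (if J g = 0 then 0 else Y ^ J g) := by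
    intro g
    by_cases h : J g = 0
    · rw [if_pos h, if_pos h, chi_conj hs (conj_of_disj h hg₀)]
      simp
    · rw [if_neg h, if_neg h, zero_add]
      exact (le_abs_self _).trans (hb g h)
  have h3 := Finset.sum_le_sum (fun g (_ : g ∈ (univ : Finset (Perm (Fin n)))) => h2 g)
  rw [h1, Finset.sum_add_distrib, ← Finset.mul_sum] at h3
  have h4 : ∑ g : Perm (Fin n), (if J g = 0 then χ (g₀ * σ * g₀⁻¹ * ρ) else 0)
      = N₀ * χ (g₀ * σ * g₀⁻¹ * ρ) := by
    rw [← Finset.sum_filter, Finset.sum_const, nsmul_eq_mul]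
  have h5 := sum_overlap hn σ.support ρ.support hY
  have h6 := one_add_pow_sub_le (t := Y * (σ.support.card : ℝ) / n) (by positivity)
    ρ.support.card (by
      rw [mul_div_assoc', div_le_one hnR]
      calc (ρ.support.card : ℝ) * (Y * σ.support.card) = Y * (σ.support.card * ρ.support.card) := by
            ring
        _ ≤ n := hY1)
  have h7 : ∑ g : Perm (Fin n), (if J g = 0 then (0 : ℝ) else Y ^ J g)
      ≤ n.factorial * (2 * (Y * (σ.support.card * ρ.support.card) / n)) := by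
    refine h5.trans (mul_le_mul_of_nonneg_left (h6.trans (le_of_eq ?_)) hf.le)
    ring
  rw [h4] at h3
  have h8 := mul_le_mul_of_nonneg_left h7 hc
  have h9 : (n.factorial : ℝ) * (-η) ≤ N₀ * χ (g₀ * σ * g₀⁻¹ * ρ) := by
    have := mul_le_mul_of_nonneg_left hmain hf.le
    have h10 : (n.factorial : ℝ) *
        (χ σ * χ ρ - c * (2 * (Y * (σ.support.card * ρ.support.card) / n)))
        = n.factorial * (χ σ * χ ρ)
          - c * (n.factorial * (2 * (Y * (σ.support.card * ρ.support.card) / n))) := by ring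
    rw [h10] at this
    linarith
  by_contra hcon
  push Not at hcon
  have h11 : χ (g₀ * σ * g₀⁻¹ * ρ) < 0 := by
    have : 0 ≤ 8 / 7 * η := by positivity
    linarith
  have h12 : N₀ * χ (g₀ * σ * g₀⁻¹ * ρ) ≤ 7 / 8 * n.factorial * χ (g₀ * σ * g₀⁻¹ * ρ) :=
    mul_le_mul_of_nonpos_right hN h11.le
  have h13 : (n.factorial : ℝ) * (-η) ≤ n.factorial * (7 / 8 * χ (g₀ * σ * g₀⁻¹ * ρ)) := by
    linarith
  have h14 := le_of_mul_le_mul_left h13 hf
  linarith

/-- The eigenvalue of the product of two disjoint cycles of odd length. -/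
lemma chi_pair {R : Perm (Fin n) →* Module.End ℝ V} {v : V}
    {χ : Perm (Fin n) → ℝ} (hs : IsState R v χ) (hn : 0 < n) {σ ρ g₀ : Perm (Fin n)}
    (hσ : σ.IsCycle) (hρ : ρ.IsCycle) {E : ℕ}
    (hab : σ.support.card + ρ.support.card = 2 * E + 2)
    (hnE : 4 * (2 * E + 2) ^ 2 ≤ n)
    (hg₀ : (σ.support.map g₀.toEmbedding ∩ ρ.support).card = 0) {y η : ℝ}
    (hy : 4 * ((2 * E + 2 : ℕ) : ℝ) ^ 2 * n ≤ y) (hyn : y ≤ (n : ℝ) ^ 2)
    (hlev : ∀ (i : ℕ) (π : Perm (Fin n)), π.support.card ≤ 2 * E + 2 → Good (2 * i) π → i ≤ E →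
      |χ π| ≤ 4 * (y / (n : ℝ) ^ 2) ^ i)
    (hη : 0 ≤ η)
    (hmain : -η ≤ χ σ * χ ρ
      - 8 * (σ.support.card * ρ.support.card / n) * (y / (n : ℝ) ^ 2) ^ E) :
    -(8 / 7 * η) ≤ χ (g₀ * σ * g₀⁻¹ * ρ) := by
  have hnR : (0 : ℝ) < n := by exact_mod_cast hn
  set a := σ.support.card with ha
  set b := ρ.support.card with hb
  have hab4 : 4 * (a * b) ≤ (2 * E + 2) ^ 2 := by
    rw [← hab]
    have : (4 * (a * b) : ℤ) ≤ (a + b) ^ 2 := by nlinarith [sq_nonneg ((a : ℤ) - b)]
    exact_mod_cast this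
  have h16 : 16 * (a * b) ≤ n := by nlinarith
  have hD : (0 : ℝ) < ((2 * E + 2 : ℕ) : ℝ) := by positivity
  have hy0 : 0 < y := lt_of_lt_of_le (by positivity) hy
  set z : ℝ := y / (n : ℝ) ^ 2 with hz
  have hz0 : 0 < z := by positivity
  have hz1 : z ≤ 1 := by rw [hz, div_le_one (by positivity)]; exact hyn
  have hY1 : 1 ≤ z⁻¹ := (one_le_inv₀ hz0).2 hz1
  have hzy : 4 * ((2 * E + 2 : ℕ) : ℝ) ^ 2 ≤ z * n := by
    rw [hz, div_mul_eq_mul_div, le_div_iff₀ (by positivity)]
    nlinarith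
  have hab4R : 4 * ((a : ℝ) * b) ≤ ((2 * E + 2 : ℕ) : ℝ) ^ 2 := by exact_mod_cast hab4
  have hab0 : (0 : ℝ) ≤ (a : ℝ) * b := by positivity
  refine chi_disj_ge hs hn h16 hg₀ (c := 4 * z ^ (E + 1)) (Y := z⁻¹) (by positivity) hY1 ?_ ?_ hη ?_
  · rw [inv_mul_le_iff₀ hz0]
    nlinarith
  · intro g hg
    set J := (σ.support.map g.toEmbedding ∩ ρ.support).card with hJ
    have hJ1 : 1 ≤ J := Nat.one_le_iff_ne_zero.2 hg
    have hJa : J ≤ a := by
      rw [hJ, ha, ← Finset.card_map g.toEmbedding (s := σ.support)]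
      exact Finset.card_le_card Finset.inter_subset_left
    have hJb : J ≤ b := Finset.card_le_card Finset.inter_subset_right
    have hsup : (g * σ * g⁻¹).support = σ.support.map g.toEmbedding := Perm.support_conj
    have hgood := good_prod (σ := g * σ * g⁻¹) (ρ := ρ) hσ.conj hρ (by rw [hsup]; exact hJ1)
    rw [Perm.card_support_conj, hsup] at hgood
    have hE1 : J ≤ E + 1 := by omega
    have h1 : a + b - 2 * J = 2 * (E + 1 - J) := by omega
    have hgood' : Good (2 * (E + 1 - J)) (g * σ * g⁻¹ * ρ) := by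
      rw [← h1]; exact hgood
    have hcard : (g * σ * g⁻¹ * ρ).support.card ≤ 2 * E + 2 := by
      calc (g * σ * g⁻¹ * ρ).support.card ≤ ((g * σ * g⁻¹).support ∪ ρ.support).card :=
            Finset.card_le_card (Perm.support_mul_le _ _)
        _ ≤ (g * σ * g⁻¹).support.card + ρ.support.card := Finset.card_union_le _ _
        _ = 2 * E + 2 := by rw [Perm.card_support_conj]; exact hab
    have h2 := hlev (E + 1 - J) _ hcard hgood' (by omega)
    refine h2.trans (le_of_eq ?_)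
    have h3 : z ^ (E + 1) = z ^ (E + 1 - J) * z ^ J := by
      rw [← pow_add]; congr 1; omega
    rw [h3, inv_pow]
    field_simp
  · have h4 : 4 * z ^ (E + 1) * (2 * (z⁻¹ * (↑a * ↑b) / n)) = 8 * (↑a * ↑b / n) * z ^ E := by
      rw [pow_succ]
      field_simp
      ring
    rw [h4]
    exact hmain

end Pool.Agent.EG88
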