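import Pool.Agent.EG88.Cases
import Pool.Agent.OG88.Hoffman

/-!
Families of permutations without two members whose quotient is a product of two disjoint cycles
of given lengths.
-/

namespace Pool.Agent.EG88

open Equiv Finset Pool.Agent.OG88

variable {n : ℕ}

lemma family_bound {σ ρ g₀ : Perm (Fin n)} (hσ : σ.IsCycle) (hρ : ρ.IsCycle)
    (hg₀ : (σ.support.map g₀.toEmbedding ∩ ρ.support).card = 0) {η : ℝ} (hη : 0 ≤ η)
    (hχ : ∀ (v : EuclideanSpace ℝ (Perm (Fin n))) (χ : Perm (Fin n) → ℝ),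
      IsState (reg n) v χ → -η ≤ χ (g₀ * σ * g₀⁻¹ * ρ))
    (F : Finset (Perm (Fin n)))
    (hF : ∀ s ∈ F, ∀ t ∈ F, (s⁻¹ * t).cycleType ≠ {σ.support.card, ρ.support.card}) :
    (F.card : ℝ) ≤ η * n.factorial := by
  refine hoffman F hη ?_ hχ
  intro s hs g hmem
  apply hF s hs _ hmem
  have h1 : s⁻¹ * (s * (g * (g₀ * σ * g₀⁻¹ * ρ) * g⁻¹)) = g * (g₀ * σ * g₀⁻¹ * ρ) * g⁻¹ := by
    group
  have h2 : Perm.Disjoint (g₀ * σ * g₀⁻¹) ρ := by
    rw [Perm.disjoint_iff_disjoint_support, Perm.support_conj, Finset.disjoint_iff_inter_eq_empty]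
    exact Finset.card_eq_zero.1 hg₀
  rw [h1, Perm.cycleType_conj, h2.cycleType_mul, Perm.cycleType_conj, hσ.cycleType, hρ.cycleType,
    Multiset.singleton_add]
  rfl

lemma card_le_factorial (F : Finset (Perm (Fin n))) : (F.card : ℝ) ≤ n.factorial := by
  have : F.card ≤ n.factorial := by
    refine (Finset.card_le_univ F).trans ?_
    simp [Fintype.card_perm]
  exact_mod_cast this

/-- Two cycles of the length `2 e + 1`. -/
theorem bound_eq {e : ℕ} (he : 1 ≤ e) (hn0 : 0 < n) (F : Finset (Perm (Fin n)))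
    (hF : ∀ s ∈ F, ∀ t ∈ F, (s⁻¹ * t).cycleType ≠ {2 * e + 1, 2 * e + 1}) :
    (F.card : ℝ) ≤
      (8 * (4 * (e : ℝ) + 2) ^ 2 / n) ^ (2 * (e : ℝ) + 1 / ((e : ℝ) + 1)) * n.factorial := by
  have hnR : (0 : ℝ) < n := by exact_mod_cast hn0
  set B : ℝ := 8 * (4 * (e : ℝ) + 2) ^ 2 with hB
  have hB0 : 0 < B := by rw [hB]; positivity
  by_cases hn : 8 * (4 * e + 2) ^ 2 ≤ n
  · have hBN : B ≤ n := by rw [hB]; exact_mod_cast hn
    set u : ℝ := (B / n) ^ (1 / ((e : ℝ) + 1)) with hu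
    have hr0 : 0 < B / n := by positivity
    have hr1 : B / n ≤ 1 := by rw [div_le_one hnR]; exact hBN
    have hu0 : 0 < u := Real.rpow_pos_of_pos hr0 _
    have hu1 : u ≤ 1 := Real.rpow_le_one hr0.le hr1 (by positivity)
    have hue : u ^ (e + 1) = B / n := by
      rw [hu, ← Real.rpow_natCast, ← Real.rpow_mul hr0.le]
      push_cast
      rw [one_div_mul_cancel (by positivity), Real.rpow_one]
    have hw : (u⁻¹) ^ (e + 1) * B = n := by
      rw [inv_pow, hue]; field_simp
    have hcard := card_cyc_support hn0 (2 * e) (by nlinarith) (by omega)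
    obtain ⟨g₀, hg₀⟩ := exists_disj hn0 (cyc hn0 (2 * e)).support (cyc hn0 (2 * e)).support
      (by rw [hcard]; nlinarith)
    have h1 := family_bound (cyc_isCycle hn0 (2 * e) (by nlinarith) (by omega))
      (cyc_isCycle hn0 (2 * e) (by nlinarith) (by omega)) hg₀
      (η := (B / n) ^ (2 * e) / u⁻¹) (by positivity)
      (fun v χ hs => case_eq (orth_reg n) hs he hn0 hB hn hw ((one_le_inv₀ hu0).2 hu1) hg₀) F
      (by rw [hcard]; exact hF)
    refine h1.trans (mul_le_mul_of_nonneg_right (le_of_eq ?_) (by positivity))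
    rw [div_inv_eq_mul, Real.rpow_add hr0, ← hu]
    congr 1
    rw [← Real.rpow_natCast]
    push_cast
    rfl
  · push Not at hn
    have h1 : (1 : ℝ) ≤ B / n := by
      rw [one_le_div hnR, hB]
      exact_mod_cast hn.le
    have h2 : (1 : ℝ) ≤ (B / n) ^ (2 * (e : ℝ) + 1 / ((e : ℝ) + 1)) :=
      Real.one_le_rpow h1 (by positivity)
    have h3 := card_le_factorial F
    have h4 : (0 : ℝ) < n.factorial := by positivity
    nlinarith

/-- Two cycles of the lengths `2 e + 3` and `2 e + 1`. -/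
theorem bound_ne {e : ℕ} (he : 1 ≤ e) (hn0 : 0 < n) (F : Finset (Perm (Fin n)))
    (hF : ∀ s ∈ F, ∀ t ∈ F, (s⁻¹ * t).cycleType ≠ {2 * e + 3, 2 * e + 1}) :
    (F.card : ℝ) ≤
      20 * (8 * (4 * (e : ℝ) + 4) ^ 2 / n) ^ (2 * (e : ℝ) + 1 - 1 / ((e : ℝ) + 1))
        * n.factorial := by
  have hnR : (0 : ℝ) < n := by exact_mod_cast hn0
  set B : ℝ := 8 * (4 * (e : ℝ) + 4) ^ 2 with hB
  have hB0 : 0 < B := by rw [hB]; positivity
  by_cases hn : 8 * (4 * e + 4) ^ 2 ≤ n
  · have hBN : B ≤ n := by rw [hB]; exact_mod_cast hn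
    set u : ℝ := (B / n) ^ (1 / ((e : ℝ) + 1)) with hu
    have hr0 : 0 < B / n := by positivity
    have hr1 : B / n ≤ 1 := by rw [div_le_one hnR]; exact hBN
    have hu0 : 0 < u := Real.rpow_pos_of_pos hr0 _
    have hu1 : u ≤ 1 := Real.rpow_le_one hr0.le hr1 (by positivity)
    have hue : u ^ (e + 1) = B / n := by
      rw [hu, ← Real.rpow_natCast, ← Real.rpow_mul hr0.le]
      push_cast
      rw [one_div_mul_cancel (by positivity), Real.rpow_one]
    have hw : (u⁻¹) ^ (e + 1) * B = n := by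
      rw [inv_pow, hue]; field_simp
    have hcard := card_cyc_support hn0 (2 * e) (by nlinarith) (by omega)
    have hcard' := card_cyc_support hn0 (2 * (e + 1)) (by nlinarith) (by omega)
    obtain ⟨g₀, hg₀⟩ := exists_disj hn0 (cyc hn0 (2 * (e + 1))).support (cyc hn0 (2 * e)).support
      (by rw [hcard, hcard']; nlinarith)
    have h1 := family_bound (cyc_isCycle hn0 (2 * (e + 1)) (by nlinarith) (by omega))
      (cyc_isCycle hn0 (2 * e) (by nlinarith) (by omega)) hg₀
      (η := 20 * (u⁻¹ * (B / n) ^ (2 * e + 1))) (by positivity)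
      (fun v χ hs => case_ne (orth_reg n) hs he hn0 hB hn hw ((one_le_inv₀ hu0).2 hu1) hg₀) F
      (by rw [hcard, hcard']; exact hF)
    refine h1.trans (mul_le_mul_of_nonneg_right (le_of_eq ?_) (by positivity))
    rw [Real.rpow_sub hr0, ← hu]
    have h2 : (B / (n : ℝ)) ^ (2 * (e : ℝ) + 1) = (B / n) ^ (2 * e + 1) := by
      rw [← Real.rpow_natCast]; push_cast; rfl
    rw [h2]
    ring
  · push Not at hn
    have h1 : (1 : ℝ) ≤ B / n := by
      rw [one_le_div hnR, hB]
      exact_mod_cast hn.le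
    have h5 : 0 ≤ 2 * (e : ℝ) + 1 - 1 / ((e : ℝ) + 1) := by
      have h6 : 1 / ((e : ℝ) + 1) ≤ 1 := by
        rw [div_le_one (by positivity)]
        have : (0 : ℝ) ≤ e := Nat.cast_nonneg _
        linarith
      have : (0 : ℝ) ≤ e := Nat.cast_nonneg _
      linarith
    have h2 : (1 : ℝ) ≤ (B / n) ^ (2 * (e : ℝ) + 1 - 1 / ((e : ℝ) + 1)) :=
      Real.one_le_rpow h1 h5
    have h3 := card_le_factorial F
    have h4 : (0 : ℝ) < n.factorial := by positivity
    nlinarith

/-- Two transpositions. -/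
theorem bound_four (hn0 : 0 < n) (F : Finset (Perm (Fin n)))
    (hF : ∀ s ∈ F, ∀ t ∈ F, (s⁻¹ * t).cycleType ≠ {2, 2}) :
    (F.card : ℝ) ≤ 64 / n * n.factorial := by
  have hnR : (0 : ℝ) < n := by exact_mod_cast hn0
  by_cases hn : 64 ≤ n
  · have hcard := card_cyc_support hn0 1 (by omega) (by omega)
    have hcyc := cyc_isCycle hn0 1 (by omega) (by omega)
    obtain ⟨g₀, hg₀⟩ := exists_disj hn0 (cyc hn0 1).support (cyc hn0 1).support
      (by rw [hcard]; omega)
    refine family_bound hcyc hcyc hg₀ (η := 64 / n) (by positivity) ?_ F (by rw [hcard]; exact hF)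
    intro v χ hs
    have h1 := chi_disj_ge hs hn0 (σ := cyc hn0 1) (ρ := cyc hn0 1) (g₀ := g₀)
      (by rw [hcard]; omega) hg₀ (c := 1) (Y := 1) (η := 8 / n) (by norm_num) le_rfl
      (by rw [hcard]; push_cast; have : (64 : ℝ) ≤ n := by exact_mod_cast hn
          linarith)
      (by intro g _; rw [one_pow, one_mul]; exact abs_chi_le_one (orth_reg n) hs _)
      (by positivity)
      (by
        rw [hcard]
        have h2 : 0 ≤ χ (cyc hn0 1) * χ (cyc hn0 1) := mul_self_nonneg _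
        have h3 : (1 : ℝ) * (2 * (1 * (((1 + 1 : ℕ) : ℝ) * ((1 + 1 : ℕ) : ℝ)) / n)) = 8 / n := by
          push_cast; ring
        rw [h3]
        linarith)
    refine le_trans ?_ h1
    have h4 : (8 : ℝ) / 7 * (8 / n) ≤ 64 / n := by
      rw [div_mul_div_comm, div_le_div_iff₀ (by positivity) hnR]
      nlinarith
    linarith
  · push Not at hn
    have h1 : (1 : ℝ) ≤ 64 / n := by
      rw [one_le_div hnR]
      exact_mod_cast hn.le
    have h3 := card_le_factorial F
    have h4 : (0 : ℝ) < n.factorial := by positivity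
    nlinarith

end Pool.Agent.EG88
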