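import Pool.Agent.EG88.Sub

/-!
Bounds for the normalised eigenvalues `χ` of a state at a given level, and the product formula.
-/

namespace Pool.Agent.EG88

open Equiv Finset Pool.Agent.OG88

variable {n : ℕ} {V : Type*} [NormedAddCommGroup V] [InnerProductSpace ℝ V]

open scoped RealInnerProductSpace

lemma state_ne {R : Perm (Fin n) →* Module.End ℝ V} {v : V} {χ : Perm (Fin n) → ℝ}
    (hs : IsState R v χ) : v ≠ 0 := by
  intro h0
  have := hs.norm_eq
  rw [h0] at this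
  simp at this

lemma chi_conj {R : Perm (Fin n) →* Module.End ℝ V} {v : V} {χ : Perm (Fin n) → ℝ}
    (hs : IsState R v χ) {π π' : Perm (Fin n)} (h : IsConj π π') : χ π = χ π' := by
  obtain ⟨c, hc⟩ := isConj_iff.1 h
  have h1 := hs.eig π'
  rw [← hc, Z_conj, hs.eig π, hc] at h1
  have h2 : (n.factorial : ℝ) * χ π = (n.factorial : ℝ) * χ π' :=
    smul_left_injective ℝ (state_ne hs) h1
  exact mul_left_cancel₀ (fact_ne n) h2

lemma sum_Z (R : Perm (Fin n) →* Module.End ℝ V) (π π' : Perm (Fin n)) :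
    ∑ g : Perm (Fin n), Z R (g * π * g⁻¹ * π') = Z R π * Z R π' := by
  have h1 : ∀ g : Perm (Fin n), Z R (g * π * g⁻¹ * π')
      = ∑ h : Perm (Fin n), R h * R (g * π * g⁻¹) * (R π' * R h⁻¹) := by
    intro g
    unfold Z
    refine Finset.sum_congr rfl (fun h _ => ?_)
    rw [← map_mul, ← map_mul, ← map_mul]
    congr 1
  rw [Finset.sum_congr rfl (fun g _ => h1 g), Finset.sum_comm]
  have h2 : ∀ h : Perm (Fin n), ∑ g : Perm (Fin n), R h * R (g * π * g⁻¹) * (R π' * R h⁻¹)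
      = Z R π * R (h * π' * h⁻¹) := by
    intro h
    rw [← Finset.sum_mul, ← Finset.mul_sum]
    have h3 : ∑ g : Perm (Fin n), R (g * π * g⁻¹) = Z R π := rfl
    rw [h3, Z_commute_R, mul_assoc, ← mul_assoc (R h), ← map_mul, ← map_mul]
  rw [Finset.sum_congr rfl (fun h _ => h2 h), ← Finset.mul_sum]
  rfl

/-- The product formula. -/
lemma sum_chi {R : Perm (Fin n) →* Module.End ℝ V} {v : V} {χ : Perm (Fin n) → ℝ}
    (hs : IsState R v χ) (π π' : Perm (Fin n)) :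
    ∑ g : Perm (Fin n), χ (g * π * g⁻¹ * π') = n.factorial * (χ π * χ π') := by
  have h1 := congrArg (fun f : Module.End ℝ V => f v) (sum_Z R π π')
  simp only [LinearMap.sum_apply, Module.End.mul_apply] at h1
  rw [Finset.sum_congr rfl (fun g _ => hs.eig _), hs.eig, map_smul, hs.eig, smul_smul,
    ← Finset.sum_smul, ← Finset.mul_sum] at h1
  have h2 := smul_left_injective ℝ (state_ne hs) h1
  have h3 := fact_ne n
  have h4 : (n.factorial : ℝ) * ∑ g : Perm (Fin n), χ (g * π * g⁻¹ * π')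
      = (n.factorial : ℝ) * (n.factorial * (χ π * χ π')) := by
    rw [h2]; ring
  exact mul_left_cancel₀ h3 h4

lemma abs_chi_le_one {R : Perm (Fin n) →* Module.End ℝ V} {v : V} {χ : Perm (Fin n) → ℝ}
    (hR : Orth R) (hs : IsState R v χ) (π : Perm (Fin n)) : |χ π| ≤ 1 := by
  have h1 : ‖Z R π v‖ ≤ n.factorial * ‖v‖ := by
    unfold Z
    rw [LinearMap.sum_apply]
    refine (norm_sum_le _ _).trans ?_
    rw [Finset.sum_congr rfl (fun g _ => hR.norm_eq _ _), Finset.sum_const, nsmul_eq_mul]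
    simp [Fintype.card_perm]
  rw [hs.eig, norm_smul, hs.norm_eq, mul_one, mul_one, Real.norm_eq_abs, abs_mul,
    abs_of_nonneg (by positivity : (0 : ℝ) ≤ n.factorial)] at h1
  have h2 : (0 : ℝ) < n.factorial := by positivity
  have h3 : (n.factorial : ℝ) * |χ π| ≤ n.factorial * 1 := by rw [mul_one]; exact h1
  exact le_of_mul_le_mul_left h3 h2

lemma exp_four_thirds : Real.exp (4 / 3) ≤ 4 := by
  have h3 := Real.exp_one_lt_d9
  have h4 : (Real.exp (4 / 3)) ^ 3 = Real.exp 1 ^ 4 := by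
    rw [← Real.exp_nat_mul, ← Real.exp_nat_mul]; norm_num
  have h5 : Real.exp 1 ^ 4 ≤ 2.7182818286 ^ 4 := pow_le_pow_left₀ (Real.exp_pos _).le h3.le 4
  have h6 : (2.7182818286 : ℝ) ^ 4 ≤ 4 ^ 3 := by norm_num
  have h7 : (Real.exp (4 / 3)) ^ 3 ≤ 4 ^ 3 := by rw [h4]; linarith
  exact le_of_pow_le_pow_left₀ (by norm_num) (by norm_num) h7

/-- Numerical condition of `tau_bound`. -/
lemma K_cond {D N y : ℝ} (hD : 3 ≤ D) (hND : 4 * D ^ 2 ≤ N) (hy : 4 * D ^ 2 * N ≤ y) :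
    (N + D) * (N * (1 + D * N / y)) ≤ (1 + 4 / (3 * D)) * (N - D) ^ 2 := by
  have hNpos : 0 < N := by nlinarith
  have hy0 : 0 < y := lt_of_lt_of_le (by positivity) hy
  have h2 : D * N / y ≤ 1 / (4 * D) := by
    rw [div_le_div_iff₀ hy0 (by positivity)]
    nlinarith
  have h3 : (N + D) * (N * (1 + D * N / y)) ≤ (N + D) * (N * (1 + 1 / (4 * D))) := by
    apply mul_le_mul_of_nonneg_left _ (by linarith)
    apply mul_le_mul_of_nonneg_left _ hNpos.le
    linarith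
  refine h3.trans ?_
  have h4 : (N + D) * (N * (1 + 1 / (4 * D))) = (3 * (N + D) * N * (4 * D + 1)) / (12 * D) := by
    field_simp; ring
  have h5 : (1 + 4 / (3 * D)) * (N - D) ^ 2 = (4 * (3 * D + 4) * (N - D) ^ 2) / (12 * D) := by
    field_simp; ring
  rw [h4, h5]
  apply div_le_div_of_nonneg_right _ (by positivity)
  nlinarith [mul_le_mul_of_nonneg_right hND hNpos.le, mul_pos hNpos (by linarith : 0 < D),
    mul_nonneg (mul_pos hNpos (by linarith : 0 < D)).le (by linarith : 0 ≤ D - 3),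
    pow_pos (by linarith : 0 < D) 3]

/-- The bounds at the level `m`. -/
lemma level {R : Perm (Fin n) →* Module.End ℝ V} {v : V}
    {χ : Perm (Fin n) → ℝ} (hR : Orth R) (hs : IsState R v χ) {m D : ℕ} (hm : 1 ≤ m)
    (hD : 3 ≤ D) (hmD : 2 * m ≤ D) (hn : 4 * D ^ 2 ≤ n) (hn0 : 0 < n) :
    ∃ y : ℝ, 4 * (D : ℝ) ^ 2 * n ≤ y ∧ y ≤ (n : ℝ) ^ 2 ∧ mom R v m ≤ y ^ m ∧
      (y = 4 * (D : ℝ) ^ 2 * n ∨ mom R v m = y ^ m) ∧
      ∀ (i : ℕ) (π : Perm (Fin n)), π.support.card ≤ D → Good (2 * i) π → i ≤ m →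
        |χ π| ≤ 4 * (y / (n : ℝ) ^ 2) ^ i := by
  set N : ℝ := (n : ℝ) with hN
  have hD3 : (3 : ℝ) ≤ D := by exact_mod_cast hD
  have hND : 4 * (D : ℝ) ^ 2 ≤ N := by
    rw [hN]; exact_mod_cast hn
  have hNpos : 0 < N := by nlinarith
  have hSn : D < n := by nlinarith
  obtain ⟨y, hy0, hyA, hyN, hMy, hyor⟩ := exists_scale (M := mom R v m) (A := 4 * (D : ℝ) ^ 2)
    (N := N) hm (mom_nonneg R v m) (by positivity) hND hNpos (mom_le hn0 hR v hs.norm_eq m)
  refine ⟨y, hyA, hyN, hMy, hyor, ?_⟩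
  set x : ℝ := Real.sqrt y with hx
  have hx0 : 0 < x := Real.sqrt_pos.2 hy0
  have hxx : x ^ 2 = y := Real.sq_sqrt hy0.le
  have hxn : x ≤ N := by
    rw [hx]
    exact Real.sqrt_le_iff.2 ⟨hNpos.le, hyN⟩
  have hmom : ∀ i ≤ m, mom R v i ≤ x ^ (2 * i) := by
    intro i hi
    rw [pow_mul, hxx]
    exact log_convex hy0 (mom_zero hn0 R v hs.norm_eq) (mom_nonneg R v)
      (mom_sq_le hn0 hR v) hMy i hi
  have h0 : ∀ π p j, j ≤ 2 * m → |tau R v π p j| ≤ x ^ j := fun π p j hj =>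
    tau_abs_le hn0 hR v hx0 hmom π p hj
  set K : ℝ := 1 + 4 / (3 * (D : ℝ)) with hK
  have hK1 : 1 ≤ K := by
    rw [hK]
    have : 0 ≤ 4 / (3 * (D : ℝ)) := by positivity
    linarith
  have hKcond : ((n : ℝ) + D) * (n * (1 + D * n / x ^ 2)) ≤ K * ((n : ℝ) - D) ^ 2 := by
    rw [hxx]
    exact K_cond hD3 hND hyA
  have hb := tau_bound hn0 hR hs hx0 hxn hSn h0 hKcond
  intro i π hπ hg hi
  have h1 := hb (2 * i) π hπ hg ⟨0, hn0⟩ 0 (by omega)
  rw [tau_zero hs, pow_zero, one_mul] at h1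
  refine h1.trans ?_
  have h2 : (x / (n : ℝ)) ^ (2 * i) = (y / N ^ 2) ^ i := by
    rw [pow_mul, div_pow, hxx]
  rw [h2]
  have h3 : K ^ (2 * i) ≤ 4 := by
    have h4 : K ^ (2 * i) ≤ Real.exp (4 / 3) := by
      rw [hK]
      apply exp_bound (by positivity)
      rw [div_mul_eq_mul_div, div_le_div_iff₀ (by positivity) (by norm_num)]
      have h5 : ((2 * i : ℕ) : ℝ) ≤ D := by exact_mod_cast (by omega : 2 * i ≤ D)
      nlinarith
    exact h4.trans exp_four_thirds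
  exact mul_le_mul_of_nonneg_right h3 (by positivity)

/-- The lower bound for the cycles of odd length in terms of the moment. -/
lemma chi_cyc {R : Perm (Fin n) →* Module.End ℝ V} {v : V}
    {χ : Perm (Fin n) → ℝ} (hR : Orth R) (hs : IsState R v χ) {e : ℕ} (he : 1 ≤ e)
    (hn : 4 * (2 * e + 1) ^ 2 ≤ n) (hn0 : 0 < n) :
    ∃ y : ℝ, 4 * (2 * (e : ℝ) + 1) ^ 2 * n ≤ y ∧ mom R v e ≤ y ^ e ∧
      (y = 4 * (2 * (e : ℝ) + 1) ^ 2 * n ∨ mom R v e = y ^ e) ∧
      mom R v e - 4 * (2 * (e : ℝ) + 1) ^ 2 * n * y ^ (e - 1)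
        ≤ χ (cyc hn0 (2 * e)) * (n : ℝ) ^ (2 * e) := by
  -- notation
  set D : ℝ := 2 * e + 1 with hD
  set N : ℝ := (n : ℝ) with hN
  have heR : (1 : ℝ) ≤ e := by exact_mod_cast he
  have hD3 : 3 ≤ D := by rw [hD]; linarith
  have hND : 4 * D ^ 2 ≤ N := by
    rw [hD, hN]
    exact_mod_cast hn
  have hNpos : 0 < N := by nlinarith
  have hSn : 2 * e + 1 < n := by nlinarith
  obtain ⟨y, hy0, hyA, hyN, hMy, hyor⟩ := exists_scale (M := mom R v e) (A := 4 * D ^ 2) (N := N)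
    he (mom_nonneg R v e) (by positivity) hND hNpos (mom_le hn0 hR v hs.norm_eq e)
  refine ⟨y, hyA, hMy, hyor, ?_⟩
  set x : ℝ := Real.sqrt y with hx
  have hx0 : 0 < x := Real.sqrt_pos.2 hy0
  have hxx : x ^ 2 = y := Real.sq_sqrt hy0.le
  have hxn : x ≤ N := by
    rw [hx]
    exact Real.sqrt_le_iff.2 ⟨hNpos.le, hyN⟩
  have hmom : ∀ i ≤ e, mom R v i ≤ x ^ (2 * i) := by
    intro i hi
    rw [pow_mul, hxx]
    exact log_convex hy0 (mom_zero hn0 R v hs.norm_eq) (mom_nonneg R v)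
      (mom_sq_le hn0 hR v) hMy i hi
  have h0 : ∀ π p j, j ≤ 2 * e → |tau R v π p j| ≤ x ^ j := fun π p j hj =>
    tau_abs_le hn0 hR v hx0 hmom π p hj
  set K : ℝ := 1 + 4 / (3 * D) with hK
  have hK1 : 1 ≤ K := by
    rw [hK]
    have : 0 ≤ 4 / (3 * D) := by positivity
    linarith
  have hKcond : ((n : ℝ) + (2 * e + 1 : ℕ)) * (n * (1 + (2 * e + 1 : ℕ) * n / x ^ 2))
      ≤ K * ((n : ℝ) - (2 * e + 1 : ℕ)) ^ 2 := by
    have h1 : ((2 * e + 1 : ℕ) : ℝ) = D := by rw [hD]; push_cast; ring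
    rw [h1, hxx]
    exact K_cond hD3 hND hyA
  have hb := tau_bound hn0 hR hs hx0 hxn hSn h0 hKcond
  -- the chain
  set t : ℕ → ℝ := fun k => tau R v (cyc hn0 k) (pt hn0 0) (2 * e - k) with ht
  have ht0 : t 0 = mom R v e := by
    simp only [ht, cyc, Nat.sub_zero]
    exact tau_one_even hn0 hR v _ e
  have htend : t (2 * e) = χ (cyc hn0 (2 * e)) := by
    simp only [ht, Nat.sub_self]
    exact tau_zero hs _ _
  have hchain := chain_lower (n := n) (e := e) (by omega) (t := t) hK1 hx0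
    (by rw [ht0]; exact mom_nonneg R v e)
    (by
      intro k j hkj
      have h1 := chain_step hn0 hR (by omega) hb (k := k) (j := j) hkj
      have h2 : 2 * e - k = j + 1 := by omega
      have h3 : 2 * e - (k + 1) = j := by omega
      simp only [ht, h2, h3]
      exact h1) he
  rw [ht0, htend] at hchain
  -- constants
  have hr : ((n : ℝ) / (n - 2 * e)) ≤ 1 + 1 / (3 * D) := by
    have h1 : (0 : ℝ) < (n : ℝ) - 2 * e := by
      have : 2 * (e : ℝ) ≤ D := by rw [hD]; linarith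
      change 0 < N - 2 * e
      nlinarith
    rw [div_le_iff₀ h1]
    change N ≤ (1 + 1 / (3 * D)) * (N - 2 * e)
    have h2 : (1 + 1 / (3 * D)) * (N - 2 * e) = (3 * D + 1) * (N - 2 * e) / (3 * D) := by
      field_simp
    rw [h2, le_div_iff₀ (by positivity)]
    have h3 : 2 * (e : ℝ) = D - 1 := by rw [hD]; ring
    rw [h3]
    nlinarith
  have hr0 : 0 ≤ ((n : ℝ) / (n - 2 * e)) := by
    have h1 : (0 : ℝ) ≤ (n : ℝ) - 2 * e := by
      have : 2 * (e : ℝ) ≤ D := by rw [hD]; linarith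
      change 0 ≤ N - 2 * e
      nlinarith
    positivity
  have hKpow : K ^ (2 * e) ≤ Real.exp (4 / 3) := by
    rw [hK]
    apply exp_bound (by positivity)
    rw [div_mul_eq_mul_div, div_le_div_iff₀ (by positivity) (by norm_num)]
    have : ((2 * e : ℕ) : ℝ) = D - 1 := by rw [hD]; push_cast; ring
    rw [this]; nlinarith
  have hrpow : ((n : ℝ) / (n - 2 * e)) ^ (2 * e) ≤ Real.exp (1 / 3) := by
    refine (pow_le_pow_left₀ hr0 hr _).trans ?_
    apply exp_bound (by positivity)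
    rw [div_mul_eq_mul_div, div_le_div_iff₀ (by positivity) (by norm_num)]
    have : ((2 * e : ℕ) : ℝ) = D - 1 := by rw [hD]; push_cast; ring
    rw [this]; nlinarith
  have hprod : ((n : ℝ) / (n - 2 * e)) ^ (2 * e) * K ^ (2 * e) ≤ 8 := by
    have h1 : Real.exp (1 / 3) * Real.exp (4 / 3) = Real.exp (5 / 3) := by
      rw [← Real.exp_add]; norm_num
    calc _ ≤ Real.exp (1 / 3) * Real.exp (4 / 3) :=
          mul_le_mul hrpow hKpow (by positivity) (Real.exp_pos _).le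
      _ ≤ 8 := by rw [h1]; exact exp_five_thirds
  have hC : ((n : ℝ) / (n - 2 * e)) ^ (2 * e) * (e * (2 * e - 1)) *
      (K ^ (2 * e) * n * x ^ (2 * e - 2)) ≤ 4 * D ^ 2 * N * y ^ (e - 1) := by
    have h1 : x ^ (2 * e - 2) = y ^ (e - 1) := by
      have : 2 * e - 2 = 2 * (e - 1) := by omega
      rw [this, pow_mul, hxx]
    rw [h1]
    have h2 : (e : ℝ) * (2 * e - 1) ≤ D ^ 2 / 2 := by rw [hD]; nlinarith
    have h3 : (0 : ℝ) ≤ (e : ℝ) * (2 * e - 1) := by
      have : (0 : ℝ) ≤ 2 * e - 1 := by linarith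
      positivity
    have h4 : ((n : ℝ) / (n - 2 * e)) ^ (2 * e) * K ^ (2 * e) * (e * (2 * e - 1))
        ≤ 8 * (D ^ 2 / 2) := mul_le_mul hprod h2 h3 (by norm_num)
    have h5 : 0 ≤ N * y ^ (e - 1) := by positivity
    have h6 := mul_le_mul_of_nonneg_right h4 h5
    calc _ = ((n : ℝ) / (n - 2 * e)) ^ (2 * e) * K ^ (2 * e) * (e * (2 * e - 1)) *
          (N * y ^ (e - 1)) := by rw [hN]; ring
      _ ≤ 8 * (D ^ 2 / 2) * (N * y ^ (e - 1)) := h6
      _ = _ := by ring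
  linarith

/-- For large moments the cycles of odd length have positive eigenvalues. -/
lemma chi_high {R : Perm (Fin n) →* Module.End ℝ V} {v : V}
    {χ : Perm (Fin n) → ℝ} (hR : Orth R) (hs : IsState R v χ) {e : ℕ} (he : 1 ≤ e)
    (hn : 4 * (2 * e + 1) ^ 2 ≤ n) (hn0 : 0 < n)
    (hM : (8 * (2 * (e : ℝ) + 1) ^ 2 * n) ^ e ≤ mom R v e) :
    mom R v e / (2 * (n : ℝ) ^ (2 * e)) ≤ χ (cyc hn0 (2 * e)) := by
  obtain ⟨y, hyA, hMy, hyor, hlow⟩ := chi_cyc hR hs he hn hn0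
  have hnR : (0 : ℝ) < n := by exact_mod_cast hn0
  set A : ℝ := 4 * (2 * (e : ℝ) + 1) ^ 2 * n with hA
  have hA0 : 0 < A := by positivity
  have hy0 : 0 < y := lt_of_lt_of_le hA0 hyA
  have h2A : (2 * A) ^ e ≤ mom R v e := by
    have : 2 * A = 8 * (2 * (e : ℝ) + 1) ^ 2 * n := by rw [hA]; ring
    rw [this]; exact hM
  have hy2 : 2 * A ≤ y := le_of_pow_le_pow_left₀ (by omega) hy0.le (h2A.trans hMy)
  have hMe : mom R v e = y ^ e := by
    rcases hyor with h | h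
    · linarith
    · exact h
  have hpow : y ^ e = y * y ^ (e - 1) := by
    rw [← pow_succ']; congr 1; omega
  have h3 : A * y ^ (e - 1) ≤ mom R v e / 2 := by
    rw [hMe, hpow]
    have : 0 ≤ y ^ (e - 1) := by positivity
    nlinarith
  rw [div_le_iff₀ (by positivity)]
  have h4 : mom R v e / 2 ≤ χ (cyc hn0 (2 * e)) * (n : ℝ) ^ (2 * e) := by linarith
  linarith

end Pool.Agent.EG88
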