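import Pool.Agent.OG88.Eigen
import Mathlib.Algebra.Order.Chebyshev

/-!
Submultiplicativity of the moments of the sums of the transpositions through a point.
-/

namespace Pool.Agent.EG88

open Equiv Finset Pool.Agent.OG88

variable {n : ℕ} {V : Type*} [NormedAddCommGroup V] [InnerProductSpace ℝ V]

open scoped RealInnerProductSpace

/-- `w` is an eigenvector (or zero) of all class sums, with normalised eigenvalues `χ`. -/
def Eig (R : Perm (Fin n) →* Module.End ℝ V) (χ : Perm (Fin n) → ℝ) (w : V) : Prop :=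
  ∀ π, Z R π w = ((n.factorial : ℝ) * χ π) • w

lemma Eig.add {R : Perm (Fin n) →* Module.End ℝ V} {χ : Perm (Fin n) → ℝ} {w w' : V}
    (h : Eig R χ w) (h' : Eig R χ w') : Eig R χ (w + w') := by
  intro π
  rw [map_add, h π, h' π, smul_add]

lemma Eig.zero (R : Perm (Fin n) →* Module.End ℝ V) (χ : Perm (Fin n) → ℝ) : Eig R χ 0 := by
  intro π; simp

lemma Eig.map {R : Perm (Fin n) →* Module.End ℝ V} {χ : Perm (Fin n) → ℝ} {w : V}
    (h : Eig R χ w) (ρ : Perm (Fin n)) : Eig R χ (R ρ w) := by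
  intro π
  rw [← Module.End.mul_apply, ← Z_commute_R, Module.End.mul_apply, h π, map_smul]

lemma Eig.X {R : Perm (Fin n) →* Module.End ℝ V} {χ : Perm (Fin n) → ℝ} {w : V}
    (h : Eig R χ w) (a : Fin n) : Eig R χ (X R a w) := by
  rw [X_apply]
  refine Finset.sum_induction _ (Eig R χ) (fun _ _ => Eig.add) (Eig.zero R χ) (fun s _ => h.map _)

lemma Eig.X_pow {R : Perm (Fin n) →* Module.End ℝ V} {χ : Perm (Fin n) → ℝ} {w : V}
    (h : Eig R χ w) (a : Fin n) (i : ℕ) : Eig R χ ((OG88.X R a ^ i) w) := by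
  induction i with
  | zero => simpa using h
  | succ i ih =>
    rw [pow_succ', Module.End.mul_apply]
    exact ih.X a

lemma IsState.eig' {R : Perm (Fin n) →* Module.End ℝ V} {χ : Perm (Fin n) → ℝ} {v : V}
    (h : IsState R v χ) : Eig R χ v := h.eig

lemma tau_zero' {R : Perm (Fin n) →* Module.End ℝ V} {w : V} {χ : Perm (Fin n) → ℝ}
    (hw : Eig R χ w) (π : Perm (Fin n)) (p : Fin n) : tau R w π p 0 = ‖w‖ ^ 2 * χ π := by
  unfold tau
  have h1 : ∑ g : Perm (Fin n), ⟪R (g * π * g⁻¹) w, (OG88.X R (g p) ^ 0) w⟫ = ⟪Z R π w, w⟫ := by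
    unfold Z
    rw [LinearMap.sum_apply, sum_inner]
    simp
  rw [h1, hw, inner_smul_left, real_inner_self_eq_norm_sq]
  have := fact_ne n
  simp
  field_simp

lemma tau_scale {R : Perm (Fin n) →* Module.End ℝ V} (hR : Orth R) {v w : V}
    {χ : Perm (Fin n) → ℝ} (hs : IsState R v χ) (hw : Eig R χ w) (p : Fin n) (j : ℕ) :
    ∀ π : Perm (Fin n), tau R w π p j = ‖w‖ ^ 2 * tau R v π p j := by
  induction j with
  | zero => intro π; rw [tau_zero' hw, tau_zero hs]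
  | succ j ih =>
    intro π
    rw [tau_succ hR, tau_succ hR, Finset.mul_sum]
    exact Finset.sum_congr rfl (fun s _ => ih _)

lemma mom_scale (hn : 0 < n) {R : Perm (Fin n) →* Module.End ℝ V} (hR : Orth R) {v w : V}
    {χ : Perm (Fin n) → ℝ} (hs : IsState R v χ) (hw : Eig R χ w) (i : ℕ) :
    ∑ b : Fin n, ‖(OG88.X R b ^ i) w‖ ^ 2 = n * (‖w‖ ^ 2 * mom R v i) := by
  have h := tau_scale hR hs hw ⟨0, hn⟩ (2 * i) 1
  rw [tau_one_even hn hR, tau_one_even hn hR] at h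
  have h1 : mom R w i = (n : ℝ)⁻¹ * ∑ b : Fin n, ‖(OG88.X R b ^ i) w‖ ^ 2 := rfl
  rw [← h, h1]
  have hn' : (n : ℝ) ≠ 0 := by positivity
  field_simp

/-- The basic inequality. -/
lemma norm_pow_succ_sq_le (hn : 0 < n) {R : Perm (Fin n) →* Module.End ℝ V} (hR : Orth R) {v w : V}
    {χ : Perm (Fin n) → ℝ} (hs : IsState R v χ) (hw : Eig R χ w) (p : Fin n) (k : ℕ) :
    ‖(OG88.X R p ^ (k + 1)) w‖ ^ 2 ≤ (n : ℝ) ^ 2 * mom R v k * ‖w‖ ^ 2 := by
  set a : V := (OG88.X R p ^ (k + 1)) w with ha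
  have haE : Eig R χ a := hw.X_pow p (k + 1)
  have h1 : ‖a‖ ^ 2 = ∑ s ∈ univ.erase p, ⟪(OG88.X R s ^ k) a, R (swap p s) w⟫ := by
    have h0 : ∑ s ∈ univ.erase p, R (swap p s) ((OG88.X R p ^ k) w) = a := by
      rw [ha, pow_succ', Module.End.mul_apply, X_apply]
    calc ‖a‖ ^ 2 = ⟪a, ∑ s ∈ univ.erase p, R (swap p s) ((OG88.X R p ^ k) w)⟫ := by
          rw [h0, real_inner_self_eq_norm_sq]
      _ = _ := by
          rw [inner_sum]
          refine Finset.sum_congr rfl (fun s _ => ?_)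
          have h2 := X_pow_mul_R R p (swap p s) k
          rw [swap_apply_left] at h2
          have h3 := congrArg (fun f : Module.End ℝ V => f w) h2
          simp only [Module.End.mul_apply] at h3
          rw [← h3, ← X_pow_symm hR]
  have h2 : ‖a‖ ^ 2 ≤ ∑ s : Fin n, ‖(OG88.X R s ^ k) a‖ * ‖w‖ := by
    rw [h1]
    calc ∑ s ∈ univ.erase p, ⟪(OG88.X R s ^ k) a, R (swap p s) w⟫
        ≤ ∑ s ∈ univ.erase p, ‖(OG88.X R s ^ k) a‖ * ‖w‖ := by
          refine Finset.sum_le_sum (fun s _ => ?_)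
          refine (real_inner_le_norm _ _).trans (le_of_eq ?_)
          rw [hR.norm_eq]
      _ ≤ _ := Finset.sum_le_sum_of_subset_of_nonneg (Finset.erase_subset _ _)
          (fun _ _ _ => by positivity)
  rw [← Finset.sum_mul] at h2
  have h3 : (∑ s : Fin n, ‖(OG88.X R s ^ k) a‖) ^ 2 ≤ n * ∑ s : Fin n, ‖(OG88.X R s ^ k) a‖ ^ 2 := by
    have := sq_sum_le_card_mul_sum_sq (s := (univ : Finset (Fin n)))
      (f := fun s => ‖(OG88.X R s ^ k) a‖)
    simpa using this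
  rw [mom_scale hn hR hs haE] at h3
  have h4 : (‖a‖ ^ 2) ^ 2 ≤ (n * (n * (‖a‖ ^ 2 * mom R v k))) * ‖w‖ ^ 2 := by
    calc (‖a‖ ^ 2) ^ 2 ≤ ((∑ s : Fin n, ‖(OG88.X R s ^ k) a‖) * ‖w‖) ^ 2 :=
          pow_le_pow_left₀ (by positivity) h2 2
      _ = (∑ s : Fin n, ‖(OG88.X R s ^ k) a‖) ^ 2 * ‖w‖ ^ 2 := by ring
      _ ≤ _ := mul_le_mul_of_nonneg_right h3 (by positivity)
  by_cases h5 : ‖a‖ ^ 2 = 0
  · rw [h5]
    have := mom_nonneg R v k
    positivity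
  · have h6 : 0 < ‖a‖ ^ 2 := lt_of_le_of_ne (by positivity) (Ne.symm h5)
    have h7 : ‖a‖ ^ 2 * ‖a‖ ^ 2 ≤ ‖a‖ ^ 2 * ((n : ℝ) ^ 2 * mom R v k * ‖w‖ ^ 2) := by
      calc ‖a‖ ^ 2 * ‖a‖ ^ 2 = (‖a‖ ^ 2) ^ 2 := by ring
        _ ≤ _ := h4
        _ = _ := by ring
    exact le_of_mul_le_mul_left h7 h6

lemma mom_add_le (hn : 0 < n) {R : Perm (Fin n) →* Module.End ℝ V} (hR : Orth R) {v : V}
    {χ : Perm (Fin n) → ℝ} (hs : IsState R v χ) (k j : ℕ) :
    mom R v (k + 1 + j) ≤ (n : ℝ) ^ 2 * mom R v k * mom R v j := by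
  have h1 : ∀ b ∈ (univ : Finset (Fin n)), ‖(OG88.X R b ^ (k + 1 + j)) v‖ ^ 2
      ≤ (n : ℝ) ^ 2 * mom R v k * ‖(OG88.X R b ^ j) v‖ ^ 2 := by
    intro b _
    rw [pow_add, Module.End.mul_apply]
    exact norm_pow_succ_sq_le hn hR hs ((IsState.eig' hs).X_pow b j) b k
  have h2 := Finset.sum_le_sum h1
  rw [← Finset.mul_sum] at h2
  have h3 : (0 : ℝ) ≤ (n : ℝ)⁻¹ := by positivity
  have h4 := mul_le_mul_of_nonneg_left h2 h3
  unfold mom at *
  calc _ ≤ _ := h4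
    _ = _ := by ring

/-- A bound for one power gives a bound for the operator on the eigenspace. -/
lemma norm_X_sq_le (hn : 0 < n) {R : Perm (Fin n) →* Module.End ℝ V} (hR : Orth R) {v w : V}
    {χ : Perm (Fin n) → ℝ} (hs : IsState R v χ) (hw : Eig R χ w) (p : Fin n) {e : ℕ} {y : ℝ}
    (hy : 0 < y) (hM : (n : ℝ) ^ 2 * mom R v e ≤ y ^ (e + 1)) :
    ‖OG88.X R p w‖ ^ 2 ≤ y * ‖w‖ ^ 2 := by
  by_cases hw0 : w = 0
  · rw [hw0]; simp
  have hw1 : 0 < ‖w‖ ^ 2 := by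
    have := norm_pos_iff.2 hw0
    positivity
  have hlc : ∀ i, (‖(OG88.X R p ^ (i + 1)) w‖ ^ 2 / ‖w‖ ^ 2) ^ 2
      ≤ (‖(OG88.X R p ^ i) w‖ ^ 2 / ‖w‖ ^ 2) * (‖(OG88.X R p ^ (i + 2)) w‖ ^ 2 / ‖w‖ ^ 2) := by
    intro i
    have h1 : ‖(OG88.X R p ^ (i + 1)) w‖ ^ 2
        ≤ ‖(OG88.X R p ^ i) w‖ * ‖(OG88.X R p ^ (i + 2)) w‖ := by
      rw [← real_inner_self_eq_norm_sq]
      have h2 : ⟪(OG88.X R p ^ (i + 1)) w, (OG88.X R p ^ (i + 1)) w⟫
          = ⟪(OG88.X R p ^ i) w, (OG88.X R p ^ (i + 2)) w⟫ := by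
        have h4 : (OG88.X R p ^ (i + 2)) w = OG88.X R p ((OG88.X R p ^ (i + 1)) w) := by
          rw [pow_succ' (OG88.X R p) (i + 1), Module.End.mul_apply]
        rw [h4, ← X_symm hR, ← Module.End.mul_apply, ← pow_succ']
      rw [h2]
      exact real_inner_le_norm _ _
    rw [div_pow, div_mul_div_comm, ← pow_two (‖w‖ ^ 2)]
    refine div_le_div_of_nonneg_right ?_ (by positivity)
    calc (‖(OG88.X R p ^ (i + 1)) w‖ ^ 2) ^ 2
        ≤ (‖(OG88.X R p ^ i) w‖ * ‖(OG88.X R p ^ (i + 2)) w‖) ^ 2 :=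
          pow_le_pow_left₀ (by positivity) h1 2
      _ = _ := by ring
  have h := log_convex (a := fun i => ‖(OG88.X R p ^ i) w‖ ^ 2 / ‖w‖ ^ 2) hy
    (by simp [hw0]) (fun i => by positivity) hlc (e := e + 1)
    (by
      rw [div_le_iff₀ hw1]
      exact (norm_pow_succ_sq_le hn hR hs hw p e).trans
        (mul_le_mul_of_nonneg_right hM (by positivity))) 1 (by omega)
  simp only [pow_one] at h
  rwa [div_le_iff₀ hw1] at h

lemma mom_succ_le (hn : 0 < n) {R : Perm (Fin n) →* Module.End ℝ V} (hR : Orth R) {v : V}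
    {χ : Perm (Fin n) → ℝ} (hs : IsState R v χ) {e : ℕ} {y : ℝ}
    (hy : 0 < y) (hM : (n : ℝ) ^ 2 * mom R v e ≤ y ^ (e + 1)) (i : ℕ) :
    mom R v (i + 1) ≤ y * mom R v i := by
  have h1 : ∀ b ∈ (univ : Finset (Fin n)), ‖(OG88.X R b ^ (i + 1)) v‖ ^ 2
      ≤ y * ‖(OG88.X R b ^ i) v‖ ^ 2 := by
    intro b _
    rw [pow_succ' (OG88.X R b) i, Module.End.mul_apply]
    exact norm_X_sq_le hn hR hs ((IsState.eig' hs).X_pow b i) b hy hM
  have h2 := Finset.sum_le_sum h1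
  rw [← Finset.mul_sum] at h2
  have h3 : (0 : ℝ) ≤ (n : ℝ)⁻¹ := by positivity
  have h4 := mul_le_mul_of_nonneg_left h2 h3
  unfold mom at *
  calc _ ≤ _ := h4
    _ = _ := by ring

lemma mom_add_le' (hn : 0 < n) {R : Perm (Fin n) →* Module.End ℝ V} (hR : Orth R) {v : V}
    {χ : Perm (Fin n) → ℝ} (hs : IsState R v χ) {e : ℕ} {y : ℝ}
    (hy : 0 < y) (hM : (n : ℝ) ^ 2 * mom R v e ≤ y ^ (e + 1)) (i m : ℕ) :
    mom R v (i + m) ≤ y ^ m * mom R v i := by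
  induction m with
  | zero => simp
  | succ m ih =>
    calc mom R v (i + (m + 1)) ≤ y * mom R v (i + m) := mom_succ_le hn hR hs hy hM (i + m)
      _ ≤ y * (y ^ m * mom R v i) := mul_le_mul_of_nonneg_left ih hy.le
      _ = _ := by ring

end Pool.Agent.EG88
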